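import Pool.Agent.E8helper95.CL.One

/-!
# A checker for upper bounds: sequences of swaps
-/

set_option autoImplicit false

open scoped commutatorElement

namespace Pool.Agent.E8helper95.CL

open FreeGroup

section chk

variable {G : Type*} [Group G] (a b : G)

/-- the value of a word: `(false, e)` is `a ^ e`, `(true, e)` is `d ^ e` -/
def ev1 (x : Bool × ℤ) : G := (if x.1 then dd a b else a) ^ x.2

/-- the value of a word -/
def ev (l : List (Bool × ℤ)) : G := (l.map (ev1 a b)).prod

theorem ev_append (l l' : List (Bool × ℤ)) : ev a b (l ++ l') = ev a b l * ev a b l' := by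
  simp [ev]

/-- adding a syllable -/
def cn (x : Bool × ℤ) (l : List (Bool × ℤ)) : List (Bool × ℤ) :=
  if x.2 = 0 then l else
    match l with
    | [] => [x]
    | y :: l' => if x.1 = y.1 then (if x.2 + y.2 = 0 then l' else (x.1, x.2 + y.2) :: l')
        else x :: y :: l'

/-- linear normal form -/
def lin : List (Bool × ℤ) → List (Bool × ℤ)
  | [] => []
  | x :: l => cn x (lin l)

theorem ev_cn (x : Bool × ℤ) (l : List (Bool × ℤ)) : ev a b (cn x l) = ev1 a b x * ev a b l := by
  unfold cn
  split_ifs with h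
  · simp [ev1, h]
  · rcases l with _ | ⟨y, l'⟩
    · simp [ev]
    · have key : x.1 = y.1 → ev1 a b x * ev1 a b y = ev1 a b (x.1, x.2 + y.2) := by
        intro h1
        simp only [ev1, ← h1, zpow_add]
      simp only
      split_ifs with h1 h2
      · have h3 := key h1
        rw [h2] at h3
        have h4 : ev a b (y :: l') = ev1 a b y * ev a b l' := by simp [ev]
        rw [h4, ← mul_assoc, h3]
        simp [ev1]
      · have h3 := key h1
        have h4 : ev a b (y :: l') = ev1 a b y * ev a b l' := by simp [ev]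
        have h5 : ev a b ((x.1, x.2 + y.2) :: l') = ev1 a b (x.1, x.2 + y.2) * ev a b l' := by
          simp [ev]
        rw [h4, ← mul_assoc, h3, h5]
      · simp [ev]

theorem ev_lin (l : List (Bool × ℤ)) : ev a b (lin l) = ev a b l := by
  induction l with
  | nil => rfl
  | cons x l ih =>
    rw [lin, ev_cn, ih]
    simp [ev]

/-- cyclic normal form, with fuel -/
def cyc : ℕ → List (Bool × ℤ) → List (Bool × ℤ)
  | 0, l => l
  | n + 1, l =>
    match l with
    | [] => []
    | [x] => [x]
    | x :: y :: l' =>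
      if ((y :: l').getLast?.map Prod.fst) = some x.1 then cyc n (lin ((y :: l') ++ [x])) else l

theorem PC_rot {g : ℕ} (x : Bool × ℤ) (l : List (Bool × ℤ)) (h : PC g (ev a b (l ++ [x]))) :
    PC g (ev a b (x :: l)) := by
  have h1 := h.conj (ev1 a b x)
  have h2 : ev1 a b x * ev a b (l ++ [x]) * (ev1 a b x)⁻¹ = ev a b (x :: l) := by
    rw [ev_append]
    simp [ev, mul_assoc]
  rw [h2] at h1
  exact h1

theorem PC_cyc {g : ℕ} : ∀ (n : ℕ) (l : List (Bool × ℤ)), PC g (ev a b (cyc n l)) →
    PC g (ev a b l) := by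
  intro n
  induction n with
  | zero => intro l h; exact h
  | succ n ih =>
    intro l h
    rcases l with _ | ⟨x, _ | ⟨y, l'⟩⟩
    · exact h
    · exact h
    · rw [cyc] at h
      split_ifs at h with h1
      · have h2 := ih _ h
        rw [ev_lin] at h2
        exact PC_rot a b x _ h2
      · exact h

/-- rotation by `r` -/
def rt : ℕ → List (Bool × ℤ) → List (Bool × ℤ)
  | 0, l => l
  | _ + 1, [] => []
  | n + 1, x :: l => rt n (l ++ [x])

theorem PC_rt {g : ℕ} : ∀ (n : ℕ) (l : List (Bool × ℤ)), PC g (ev a b (rt n l)) →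
    PC g (ev a b l) := by
  intro n
  induction n with
  | zero => intro l h; exact h
  | succ n ih =>
    intro l h
    rcases l with _ | ⟨x, l⟩
    · exact h
    · exact PC_rot a b x l (ih _ h)

/-- the swap of the first segment (length `i`) with the third one (length `k`) -/
def sw (i j k : ℕ) (v : List (Bool × ℤ)) : List (Bool × ℤ) :=
  ((v.drop i).drop j).take k ++ ((v.drop i).take j ++ (v.take i ++ ((v.drop i).drop j).drop k))

theorem PC_sw {g : ℕ} (i j k : ℕ) (v : List (Bool × ℤ)) (h : PC g (ev a b (sw i j k v))) :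
    PC (g + 1) (ev a b v) := by
  have h1 : v = v.take i ++ ((v.drop i).take j ++ (((v.drop i).drop j).take k ++
      ((v.drop i).drop j).drop k)) := by
    rw [List.take_append_drop, List.take_append_drop, List.take_append_drop]
  have h2 : ev a b v = 1 * ev a b (v.take i) * ev a b ((v.drop i).take j) *
      ev a b (((v.drop i).drop j).take k) * ev a b (((v.drop i).drop j).drop k) := by
    conv_lhs => rw [h1]
    simp only [ev_append, one_mul, mul_assoc]
  rw [h2]
  apply PC.swap
  rw [sw] at h
  simp only [ev_append] at h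
  simpa only [one_mul, mul_assoc] using h

/-- the checker -/
def chk : List (ℕ × ℕ × ℕ × ℕ) → List (Bool × ℤ) → Bool
  | [], [] => true
  | [], [(false, e), (true, f)] => decide (e + f = 0)
  | [], [(true, e), (false, f)] => decide (e + f = 0)
  | [], _ => false
  | (r, i, j, k) :: ms, l => chk ms (cyc l.length (lin (sw i j k (rt r l))))

theorem PC_base (e : ℤ) : PC 1 (a ^ e * dd a b ^ (-e)) := by
  have h1 : a ^ e * dd a b ^ (-e) = ⁅a ^ e, b⁆ := by
    have h4 : b * (a ^ e)⁻¹ * b⁻¹ = dd a b ^ (-e) := by
      rw [dd, conj_zpow, zpow_neg]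
    rw [commutatorElement_def, ← h4]
    simp only [mul_assoc]
  rw [h1]
  exact PC.comm _ _

theorem PC_chk : ∀ (ms : List (ℕ × ℕ × ℕ × ℕ)) (l : List (Bool × ℤ)), chk ms l = true →
    PC (ms.length + 1) (ev a b l) := by
  intro ms
  induction ms with
  | nil =>
    intro l h
    rcases l with _ | ⟨⟨x, e⟩, _ | ⟨⟨y, f⟩, _ | ⟨z, l⟩⟩⟩
    · have : ev a b [] = 1 := rfl
      rw [this]
      exact PC.zero.mono (by omega)
    · cases x <;> simp [chk] at h
    · cases x <;> cases y <;> simp [chk] at h
      · have h1 : f = -e := by omega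
        subst h1
        have h2 : ev a b [(false, e), (true, -e)] = a ^ e * dd a b ^ (-e) := by simp [ev, ev1]
        rw [h2]
        exact PC_base a b e
      · have h1 : e = -f := by omega
        subst h1
        apply PC_rot
        have h2 : ev a b ([(false, f)] ++ [(true, -f)]) = a ^ f * dd a b ^ (-f) := by simp [ev, ev1]
        rw [h2]
        exact PC_base a b f
    · cases x <;> cases y <;> simp [chk] at h
  | cons m ms ih =>
    intro l h
    obtain ⟨r, i, j, k⟩ := m
    rw [chk] at h
    have h1 := ih _ h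
    have h2 := PC_cyc a b _ _ h1
    rw [ev_lin] at h2
    have h3 := PC_sw a b i j k _ h2
    exact PC_rt a b r l h3

/-- from pairs to syllables -/
def tos (M : List (ℤ × ℤ)) : List (Bool × ℤ) :=
  M.flatMap fun p => [(false, p.1), (true, p.2)]

theorem ev_tos (M : List (ℤ × ℤ)) : ev a b (tos M) = wd a b M := by
  induction M with
  | nil => rfl
  | cons p M ih =>
    have h1 : tos (p :: M) = [(false, p.1), (true, p.2)] ++ tos M := rfl
    rw [h1, ev_append, ih]
    simp [ev, ev1, wd]

end chk

/-- integer form of twice the scale times the weight -/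
def Fz (s : ℕ) (p : ℤ) : ℤ := if 0 < p then min (s : ℤ) (2 * p - s) else
  if p < 0 then - min (s : ℤ) (-2 * p - s) else 0

theorem F_eq (s : ℕ) (hs : 0 < s) (p : ℤ) : F s p = (Fz s p : ℚ) / (2 * s) := by
  have hs' : (0 : ℚ) < s := by exact_mod_cast hs
  have key : ∀ q : ℤ, min (1 / 2 : ℚ) ((q : ℚ) / s - 1 / 2) =
      ((min (s : ℤ) (2 * q - s) : ℤ) : ℚ) / (2 * s) := by
    intro q
    rcases le_total (s : ℤ) (2 * q - s) with h | h
    · rw [min_eq_left h, min_eq_left]
      · push_cast; field_simp
      · have h1 : (s : ℚ) ≤ 2 * q - s := by exact_mod_cast h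
        have h2 : (1 : ℚ) ≤ (q : ℚ) / s := by
          rw [le_div_iff₀ hs']; linarith
        linarith
    · rw [min_eq_right h, min_eq_right]
      · push_cast; field_simp
      · have h1 : (2 * q - s : ℚ) ≤ s := by exact_mod_cast h
        have h2 : (q : ℚ) / s ≤ 1 := by
          rw [div_le_iff₀ hs']; linarith
        linarith
  unfold F Fz
  split_ifs with h1 h2
  · exact key p
  · have h3 := key (-p)
    push_cast at h3 ⊢
    rw [h3]
    have : (2 * -(p : ℚ) - s) = (-2 * (p : ℚ) - s) := by ring
    rw [this]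
    ring
  · simp

/-- the certificate for one pair -/
theorem cert (M : List (ℤ × ℤ)) (s s' m k : ℕ) (ms : List (ℕ × ℕ × ℕ × ℕ)) (hs : 0 < s)
    (hs' : 0 < s') (hk : 2 ≤ k)
    (h0 : (M.map Prod.snd).sum + (M.map Prod.fst).sum = 0)
    (hM : M.all (fun p => decide (p.1 ≠ 0) && decide (p.2 ≠ 0)) = true)
    (hms : ms.length + 1 = k) (hc : chk ms (tos (List.replicate m M).flatten) = true)
    (hv : ((2 * k : ℤ) - 3) * (2 * s * s') <
      m * (M.map fun p => s' * Fz s p.1 - s * Fz s' p.2).sum) :
    ∃ w ∈ commutator (FreeGroup Bool), PC k (w ^ m) ∧ ∀ g, PC g (w ^ m) → k ≤ g := by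
  refine ⟨wd (of false) (of true) M, wd_mem _ _ h0, ?_, ?_⟩
  · rw [wd_pow, ← ev_tos, ← hms]
    exact PC_chk _ _ _ _ hc
  · have hM' : ∀ p ∈ M, p.1 ≠ 0 ∧ p.2 ≠ 0 := by
      intro p hp
      have := List.all_eq_true.1 hM p hp
      simpa using this
    have hs1 : (0 : ℚ) < s := by exact_mod_cast hs
    have hs2 : (0 : ℚ) < s' := by exact_mod_cast hs'
    have hval : ((2 : ℚ) * s * s') * (M.map fun p => F s p.1 + H s' p.2).sum =
        (((M.map fun p => s' * Fz s p.1 - s * Fz s' p.2).sum : ℤ) : ℚ) := by
      clear hc hv hM h0 hM'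
      induction M with
      | nil => simp
      | cons p M ih =>
        rw [List.map_cons, List.map_cons, List.sum_cons, List.sum_cons, mul_add, ih, H,
          F_eq s hs, F_eq s' hs']
        push_cast
        field_simp
        ring
    have key : ∀ g', PC (g' + 1) (wd (of false) (of true) M ^ m) → (2 * k : ℤ) - 3 < 2 * g' + 1 := by
      intro g' hg'
      have h3 := lower (s, s') _ hM' m g' hg'
      have h4 : (((2 * k : ℤ) - 3 : ℤ) : ℚ) * (2 * s * s') <
          m * (((M.map fun p => s' * Fz s p.1 - s * Fz s' p.2).sum : ℤ) : ℚ) := by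
        exact_mod_cast hv
      rw [← hval] at h4
      have h5 : (m : ℚ) * ((2 : ℚ) * s * s' * (M.map fun p => F s p.1 + H s' p.2).sum) ≤
          (2 * g' + 1) * (2 * s * s') := by
        have h6 : (0 : ℚ) < 2 * s * s' := by positivity
        calc (m : ℚ) * ((2 : ℚ) * s * s' * (M.map fun p => F s p.1 + H s' p.2).sum)
            = (m * (M.map fun p => F s p.1 + H s' p.2).sum) * (2 * s * s') := by ring
          _ ≤ (2 * g' + 1) * (2 * s * s') := mul_le_mul_of_nonneg_right h3 h6.le
      have h6 : (0 : ℚ) < 2 * s * s' := by positivity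
      have h7 : (((2 * k : ℤ) - 3 : ℤ) : ℚ) < 2 * g' + 1 := by
        by_contra hcon
        push Not at hcon
        have := mul_le_mul_of_nonneg_right hcon h6.le
        linarith
      exact_mod_cast h7
    intro g hg
    rcases g with _ | g
    · have h3 := key 0 (hg.mono (by omega))
      omega
    · have h3 := key g hg
      omega

theorem ex5 : ∃ w ∈ commutator (FreeGroup Bool), PC 4 (w ^ 5) ∧ ∀ g, PC g (w ^ 5) → 4 ≤ g := by
  refine cert [(-2, 1), (4, -3)] 4 3 5 4 [(2, 1, 6, 3), (6, 1, 6, 3), (0, 1, 2, 1)] (by norm_num)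
    (by norm_num) (by norm_num) (by decide +kernel) (by decide +kernel) (by decide +kernel)
    (by decide +kernel) (by decide +kernel)

end Pool.Agent.E8helper95.CL
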