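import Pool.Agent.E8helper95.CL.Up
import Pool.Agent.H290R3.FGWord

/-!
# Commutator length of powers in the free group of rank two: lower bounds

A quasimorphism of defect `1/2` on the free group on `a = of false`, `b = of true`: the sum over the
syllables `a ^ p` in the context `b⁻¹ a ^ p b` of `F s.1 p` and over the syllables `a ^ q` in the context
`b a ^ q b⁻¹` of `H s.2 q = - F s.2 q`.
-/

set_option autoImplicit false

open scoped commutatorElement

namespace Pool.Agent.E8helper95.CL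

section culler

variable {G : Type*} [Group G]

theorem pow_split (x y : G) : ∀ n : ℕ, PC (n / 2) ((x * y) ^ n * (x ^ n * y ^ n)⁻¹) := by
  intro n
  induction n using Nat.strong_induction_on with
  | _ n ih =>
    rcases n with _ | _ | n
    · simpa using (PC.zero : PC 0 (1 : G))
    · simpa using (PC.zero : PC 0 (1 : G))
    · have h1 := ih n (by omega)
      have h2 : (n + 1 + 1) / 2 = n / 2 + 1 := by omega
      have h3 : (x * y) ^ (n + 1 + 1) * (x ^ (n + 1 + 1) * y ^ (n + 1 + 1))⁻¹ =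
          x * y * (x * y) ^ n * x * (y * (x ^ (n + 1 + 1) * y ^ (n + 1 + 1))⁻¹) := by
        rw [pow_succ (x * y) (n + 1), pow_succ' (x * y) n]
        simp only [mul_assoc]
      rw [h2, h3]
      apply PC.swap
      have h4 := h1.conj (x ^ 2)
      have h5 : x * x * (x * y) ^ n * y * (y * (x ^ (n + 1 + 1) * y ^ (n + 1 + 1))⁻¹) =
          x ^ 2 * ((x * y) ^ n * (x ^ n * y ^ n)⁻¹) * (x ^ 2)⁻¹ := by
        have e1 : x ^ (n + 1 + 1) = x ^ 2 * x ^ n := by rw [← pow_add]; congr 1; omega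
        have e2 : y ^ (n + 1 + 1) = y ^ n * y ^ 2 := by rw [← pow_add]
        rw [e1, e2, ← pow_two x]
        group
      rw [h5]
      exact h4

theorem comm_pow (u v : G) (n : ℕ) : PC (n / 2 + 1) (⁅u, v⁆ ^ n) := by
  have h1 := (pow_split u (v * u⁻¹ * v⁻¹) n).mul (PC.comm (u ^ n) v)
  have h2 : (u * (v * u⁻¹ * v⁻¹)) ^ n * (u ^ n * (v * u⁻¹ * v⁻¹) ^ n)⁻¹ * ⁅u ^ n, v⁆ = ⁅u, v⁆ ^ n := by
    rw [conj_pow, commutatorElement_def, commutatorElement_def]
    have e1 : u * (v * u⁻¹ * v⁻¹) = u * v * u⁻¹ * v⁻¹ := by simp only [mul_assoc]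
    rw [e1]
    group
  rw [h2] at h1
  exact h1

theorem pow_conj (c u : G) (g : ℕ) (hu : PC g u) : ∀ n : ℕ, PC (n * g) ((c * u) ^ n * (c ^ n)⁻¹) := by
  intro n
  induction n with
  | zero => simpa using (PC.zero : PC 0 (1 : G))
  | succ n ih =>
    have h1 := ih.mul (hu.conj (c ^ (n + 1)))
    have h2 : (c * u) ^ n * (c ^ n)⁻¹ * (c ^ (n + 1) * u * (c ^ (n + 1))⁻¹) =
        (c * u) ^ (n + 1) * (c ^ (n + 1))⁻¹ := by
      rw [pow_succ (c * u) n]
      have e1 : c ^ (n + 1) = c ^ n * c := pow_succ c n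
      rw [e1]
      group
    rw [h2] at h1
    have h3 : (n + 1) * g = n * g + g := by ring
    rw [h3]
    exact h1

theorem PC.pow {g : ℕ} {z : G} (hz : PC (g + 1) z) (n : ℕ) : PC (n * g + (n / 2 + 1)) (z ^ n) := by
  obtain ⟨L, h1, h2⟩ := hz
  rcases L with _ | ⟨p, L⟩
  · simp at h1
  · simp at h1 h2
    have h3 : PC g (L.map fun p : G × G => ⁅p.1, p.2⁆).prod := ⟨L, h1, rfl⟩
    have h4 := (pow_conj ⁅p.1, p.2⁆ _ g h3 n).mul (comm_pow p.1 p.2 n)
    rw [inv_mul_cancel_right, ← h2] at h4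
    exact h4

end culler

section quasi

variable (s : ℕ)

/-- the weight of `b⁻¹ a ^ p b` -/
def F (p : ℤ) : ℚ :=
  if 0 < p then min (1 / 2) ((p : ℚ) / s - 1 / 2)
  else if p < 0 then - min (1 / 2) ((-p : ℚ) / s - 1 / 2) else 0

/-- the weight of `b a ^ q b⁻¹` -/
def H (q : ℤ) : ℚ := - F s q

theorem F_neg (p : ℤ) : F s (-p) = - F s p := by
  unfold F
  rcases lt_trichotomy p 0 with h | h | h
  · rw [if_pos (by omega), if_neg (by omega), if_pos h]; push_cast; ring
  · subst h; simp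
  · rw [if_neg (by omega), if_pos (by omega), if_pos h]; push_cast; ring_nf

theorem H_neg (p : ℤ) : H s (-p) = - H s p := by
  unfold H
  rw [F_neg]

theorem F_pos_bd {p : ℤ} (h : 0 < p) : -(1 / 2) ≤ F s p ∧ F s p ≤ 1 / 2 := by
  unfold F
  rw [if_pos h]
  refine ⟨le_min (by norm_num) ?_, min_le_left _ _⟩
  have : (0 : ℚ) ≤ (p : ℚ) / s := by positivity
  linarith

theorem F_bd (p : ℤ) : -(1 / 2) ≤ F s p ∧ F s p ≤ 1 / 2 := by
  rcases lt_trichotomy p 0 with h | h | h
  · have h1 := F_pos_bd s (p := -p) (by omega)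
    rw [F_neg] at h1
    constructor <;> linarith [h1.1, h1.2]
  · subst h; simp [F]
  · exact F_pos_bd s h

theorem H_bd (p : ℤ) : -(1 / 2) ≤ H s p ∧ H s p ≤ 1 / 2 := by
  unfold H
  have := F_bd s p
  constructor <;> linarith [this.1, this.2]

theorem F_add_pos {x y : ℤ} (hx : 0 < x) (hy : 0 < y) :
    -(1 / 2) ≤ F s x + F s y - F s (x + y) ∧ F s x + F s y - F s (x + y) ≤ 1 / 2 := by
  have hx' : (0 : ℚ) ≤ (x : ℚ) / s := by positivity
  have hy' : (0 : ℚ) ≤ (y : ℚ) / s := by positivity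
  have e : ((x + y : ℤ) : ℚ) / s = (x : ℚ) / s + (y : ℚ) / s := by push_cast; ring
  unfold F
  rw [if_pos hx, if_pos hy, if_pos (by omega), e]
  generalize (x : ℚ) / s = u at hx'
  generalize (y : ℚ) / s = v at hy'
  rcases le_total (1 / 2 : ℚ) (u - 1 / 2) with h1 | h1 <;>
  rcases le_total (1 / 2 : ℚ) (v - 1 / 2) with h2 | h2 <;>
  rcases le_total (1 / 2 : ℚ) (u + v - 1 / 2) with h3 | h3 <;>
  simp only [min_eq_left, min_eq_right, h1, h2, h3] <;> constructor <;> linarith

/-- an odd function which is bounded and nearly additive on positive integers is nearly additive -/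
theorem odd_add (f : ℤ → ℚ) (h0 : ∀ x, f (-x) = - f x)
    (h : ∀ x y : ℤ, 0 < x → 0 < y → -(1 / 2) ≤ f x + f y - f (x + y) ∧ f x + f y - f (x + y) ≤ 1 / 2)
    (x y : ℤ) : -(1 / 2) ≤ f x + f y - f (x + y) ∧ f x + f y - f (x + y) ≤ 1 / 2 := by
  have hz : f 0 = 0 := by
    have := h0 0
    rw [neg_zero] at this
    linarith
  have key : ∀ x y : ℤ, 0 < x → -(1 / 2) ≤ f x + f y - f (x + y) ∧ f x + f y - f (x + y) ≤ 1 / 2 := by
    intro x y hx
    rcases lt_trichotomy y 0 with hy | hy | hy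
    · rcases lt_trichotomy (x + y) 0 with hs | hs | hs
      · have h1 := h x (-(x + y)) hx (by omega)
        have e1 : x + -(x + y) = -y := by ring
        rw [e1, h0, h0] at h1
        constructor <;> linarith [h1.1, h1.2]
      · have e1 : y = -x := by omega
        rw [hs, e1, h0, hz]
        constructor <;> linarith
      · have h1 := h (x + y) (-y) hs (by omega)
        have e1 : x + y + -y = x := by ring
        rw [e1, h0] at h1
        constructor <;> linarith [h1.1, h1.2]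
    · rw [hy, add_zero, hz]
      constructor <;> linarith
    · exact h x y hx hy
  rcases lt_trichotomy x 0 with hx | hx | hx
  · have h1 := key (-x) (-y) (by omega)
    have e1 : -x + -y = -(x + y) := by ring
    rw [e1, h0, h0, h0] at h1
    constructor <;> linarith [h1.1, h1.2]
  · rw [hx, zero_add, hz]
    constructor <;> linarith
  · exact key x y hx

theorem F_add (x y : ℤ) :
    -(1 / 2) ≤ F s x + F s y - F s (x + y) ∧ F s x + F s y - F s (x + y) ≤ 1 / 2 :=
  odd_add (F s) (F_neg s) (fun _ _ hx hy => F_add_pos s hx hy) x y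

theorem H_add (x y : ℤ) :
    -(1 / 2) ≤ H s x + H s y - H s (x + y) ∧ H s x + H s y - H s (x + y) ≤ 1 / 2 := by
  have := F_add s x y
  unfold H
  constructor <;> linarith [this.1, this.2]

end quasi

section quasi2

variable (s : ℕ × ℕ)

/-- the weight of a syllable -/
def J (σ : Bool) (e : ℤ) (τ : Bool) : ℚ :=
  match σ, τ with
  | false, true => F s.1 e
  | true, false => H s.2 e
  | _, _ => 0

/-- summaries of words -/
inductive Mo where
  | pu (e : ℤ) : Mo
  | fu (h : ℤ) (τ : Bool) (q : ℚ) (σ : Bool) (t : ℤ) : Mo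

open Mo

/-- the product -/
def mo : Mo → Mo → Mo
  | pu e, pu e' => pu (e + e')
  | pu e, fu h τ q σ t => fu (e + h) τ q σ t
  | fu h τ q σ t, pu e => fu h τ q σ (t + e)
  | fu h τ q σ t, fu h' τ' q' σ' t' => fu h τ (q + q' + J s σ (t + h') τ') σ' t'

/-- the inverse -/
def iv : Mo → Mo
  | pu e => pu (-e)
  | fu h τ q σ t => fu (-t) (!σ) (-q) (!τ) (-h)

/-- the value -/
def vl : Mo → ℚ
  | pu _ => 0
  | fu _ _ q _ _ => q

theorem J_neg (σ τ : Bool) (e : ℤ) : J s (!τ) (-e) (!σ) = - J s σ e τ := by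
  cases σ <;> cases τ <;> simp [J, F_neg, H_neg]

theorem mo_assoc (x y z : Mo) : mo s (mo s x y) z = mo s x (mo s y z) := by
  rcases x with e | ⟨h, τ, q, σ, t⟩ <;> rcases y with e' | ⟨h', τ', q', σ', t'⟩ <;>
    rcases z with e'' | ⟨h'', τ'', q'', σ'', t''⟩ <;> simp only [mo, add_assoc]
  congr 1
  ring

theorem iv_mo (x y : Mo) : iv (mo s x y) = mo s (iv y) (iv x) := by
  rcases x with e | ⟨h, τ, q, σ, t⟩ <;> rcases y with e' | ⟨h', τ', q', σ', t'⟩ <;>
    simp only [mo, iv]
  · congr 1; ring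
  · congr 1; ring
  · congr 1; ring
  · have e1 : -h' + -t = -(t + h') := by ring
    rw [e1, J_neg]
    congr 1
    ring

theorem vl_iv (x : Mo) : vl (iv x) = - vl x := by
  cases x <;> simp [vl, iv]

theorem J_bd (σ τ : Bool) (e : ℤ) : -(1 / 2) ≤ J s σ e τ ∧ J s σ e τ ≤ 1 / 2 := by
  cases σ <;> cases τ <;> simp only [J]
  · constructor <;> norm_num
  · exact F_bd s.1 e
  · exact H_bd s.2 e
  · constructor <;> norm_num

/-- the defect -/
theorem defect (U C V : Mo) :
    -(1 / 2) ≤ vl (mo s U C) + vl (mo s (iv C) V) - vl (mo s U V) ∧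
      vl (mo s U C) + vl (mo s (iv C) V) - vl (mo s U V) ≤ 1 / 2 := by
  rcases U with e | ⟨h, τ, q, σ, t⟩ <;> rcases C with e' | ⟨h', τ', q', σ', t'⟩ <;>
    rcases V with e'' | ⟨h'', τ'', q'', σ'', t''⟩ <;> simp only [mo, iv, vl]
  · constructor <;> norm_num
  · constructor <;> linarith
  · constructor <;> linarith
  · have := J_bd s (!τ') τ'' (-h' + h'')
    constructor <;> linarith [this.1, this.2]
  · constructor <;> linarith
  · have := J_bd s σ τ'' (t + h'')
    constructor <;> linarith [this.1, this.2]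
  · have := J_bd s σ τ' (t + h')
    constructor <;> linarith [this.1, this.2]
  · have h1 := F_add s.1 (t + h') (-h' + h'')
    have h2 := H_add s.2 (t + h') (-h' + h'')
    have e1 : t + h' + (-h' + h'') = t + h'' := by ring
    rw [e1] at h1 h2
    have h3 := F_bd s.1 (t + h')
    have h4 := F_bd s.1 (t + h'')
    have h5 := F_bd s.1 (-h' + h'')
    have h6 := H_bd s.2 (t + h')
    have h7 := H_bd s.2 (t + h'')
    have h8 := H_bd s.2 (-h' + h'')
    cases σ <;> cases τ' <;> cases τ'' <;> simp only [J, Bool.not_true, Bool.not_false] <;>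
      constructor <;>
      linarith [h1.1, h1.2, h2.1, h2.2, h3.1, h3.2, h4.1, h4.2, h5.1, h5.2, h6.1, h6.2, h7.1, h7.2,
        h8.1, h8.2]

/-- the letter -/
def lt : Bool × Bool → Mo
  | (false, e) => pu (if e then 1 else -1)
  | (true, e) => fu 0 e 0 e 0

/-- the summary of a word -/
def Ph : List (Bool × Bool) → Mo
  | [] => pu 0
  | l :: L => mo s (lt l) (Ph L)

theorem pu_mo (x : Mo) : mo s (pu 0) x = x := by
  cases x <;> simp [mo]

theorem mo_pu (x : Mo) : mo s x (pu 0) = x := by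
  cases x <;> simp [mo]

theorem Ph_append (L L' : List (Bool × Bool)) : Ph s (L ++ L') = mo s (Ph s L) (Ph s L') := by
  induction L with
  | nil => simp [Ph, pu_mo]
  | cons l L ih => simp only [List.cons_append, Ph, ih, mo_assoc]

theorem Ph_inv (L : List (Bool × Bool)) : Ph s (FreeGroup.invRev L) = iv (Ph s L) := by
  induction L with
  | nil => simp [Ph, iv]
  | cons l L ih =>
    have h1 : FreeGroup.invRev (l :: L) = FreeGroup.invRev L ++ [(l.1, !l.2)] := by
      simp [FreeGroup.invRev]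
    rw [h1, Ph_append, ih]
    change _ = iv (mo s (lt l) (Ph s L))
    rw [iv_mo]
    congr 1
    obtain ⟨g, e⟩ := l
    cases g <;> cases e <;> simp [Ph, lt, mo, iv]

/-- the quasimorphism -/
def Qf (x : FreeGroup Bool) : ℚ := vl (Ph s x.toWord)

theorem Qf_one : Qf s 1 = 0 := by simp [Qf, Ph, vl]

theorem Qf_inv (x : FreeGroup Bool) : Qf s x⁻¹ = - Qf s x := by
  rw [Qf, FreeGroup.toWord_inv, Ph_inv, vl_iv, Qf]

theorem Qf_mul (x y : FreeGroup Bool) :
    -(1 / 2) ≤ Qf s x + Qf s y - Qf s (x * y) ∧ Qf s x + Qf s y - Qf s (x * y) ≤ 1 / 2 := by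
  obtain ⟨u, c, v, h1, h2, h3⟩ := Pool.Agent.H290R3.exists_decomp x y
  rw [Qf, Qf, Qf, h1, h2, h3, Ph_append, Ph_append, Ph_append, Ph_inv]
  exact defect s _ _ _

theorem Qf_comm (x y : FreeGroup Bool) : Qf s ⁅x, y⁆ ≤ 3 / 2 := by
  rw [commutatorElement_def]
  have h1 := (Qf_mul s (x * y * x⁻¹) y⁻¹).1
  have h2 := (Qf_mul s (x * y) x⁻¹).1
  have h3 := (Qf_mul s x y).1
  rw [Qf_inv] at h1 h2
  linarith

theorem Qf_PC : ∀ (n : ℕ) (z : FreeGroup Bool), PC n z → Qf s z ≤ 2 * n := by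
  intro n
  induction n with
  | zero =>
    rintro z ⟨L, h1, h2⟩
    rw [List.length_eq_zero_iff] at h1
    subst h1
    rw [h2]
    simp [Qf_one]
  | succ n ih =>
    rintro z ⟨L, h1, h2⟩
    rcases L with _ | ⟨p, L⟩
    · simp at h1
    · simp at h1 h2
      have h3 := ih _ ⟨L, h1, rfl⟩
      have h4 := (Qf_mul s ⁅p.1, p.2⁆ (L.map fun p => ⁅p.1, p.2⁆).prod).1
      have h5 := Qf_comm s p.1 p.2
      rw [h2]
      push_cast
      linarith

end quasi2

end Pool.Agent.E8helper95.CL
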