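import Pool.Agent.E8helper95.CL.Wd

/-!
# The one-sided family
-/

set_option autoImplicit false

open scoped commutatorElement

namespace Pool.Agent.E8helper95.CL

open FreeGroup

section gen

variable {G : Type*} [Group G] (a b : G)

theorem BM.insert {g : ℕ} {S : Multiset ℤ} (h : BM a b g (0 ::ₘ S)) : BM a b g S := by
  intro w L τ hw hL hτ
  have h1 := hw.mul a b (Ty.apow a b 0)
  rw [zpow_zero, mul_one, add_zero] at h1
  refine h w _ τ h1 ?_ ?_
  · rw [← hL, ← Multiset.coe_add, add_comm]; rfl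
  · simp only [List.sum_append, List.sum_singleton]; omega

theorem BM.all (S : Multiset ℤ) : ∃ g, BM a b g S := by
  rcases Nat.even_or_odd' (Multiset.card S) with ⟨n, hn | hn⟩
  · exact ⟨n + 1, BM.insert a b (BM.odd a b n _ (by rw [Multiset.card_cons, hn]))⟩
  · exact ⟨n + 1, BM.odd a b n _ hn⟩

theorem PC.mem {n : ℕ} {z : G} (h : PC n z) : z ∈ commutator G := by
  obtain ⟨L, _, rfl⟩ := h
  apply Subgroup.list_prod_mem
  intro x hx
  rw [List.mem_map] at hx
  obtain ⟨p, _, rfl⟩ := hx
  exact Subgroup.commutator_mem_commutator (Subgroup.mem_top _) (Subgroup.mem_top _)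

theorem Ty.wd (M : List (ℤ × ℤ)) :
    Ty a b (wd a b M) (M.map Prod.fst) (M.map Prod.snd).sum :=
  ⟨0, M, rfl, by simp, by simp⟩

/-- from the multiset of exponents to the power -/
theorem PC_of_BM {g m : ℕ} {M : List (ℤ × ℤ)} (h0 : (M.map Prod.snd).sum + (M.map Prod.fst).sum = 0)
    (h : BM a b g (m • ((M.map Prod.fst : List ℤ) : Multiset ℤ))) : PC g (CL.wd a b M ^ m) := by
  rw [wd_pow]
  refine h _ _ _ (Ty.wd a b _) ?_ ?_
  · clear h
    induction m with
    | zero => simp
    | succ m ih =>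
      rw [List.replicate_succ, List.flatten_cons, List.map_append, ← Multiset.coe_add, ih,
        succ_nsmul, add_comm]
  · clear h
    induction m with
    | zero => simp
    | succ m ih =>
      rw [List.replicate_succ, List.flatten_cons, List.map_append, List.map_append,
        List.sum_append, List.sum_append]
      omega

theorem wd_mem {M : List (ℤ × ℤ)} (h0 : (M.map Prod.snd).sum + (M.map Prod.fst).sum = 0) :
    CL.wd a b M ∈ commutator G := by
  obtain ⟨g, hg⟩ := BM.all a b (1 • ((M.map Prod.fst : List ℤ) : Multiset ℤ))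
  have h1 := PC_of_BM a b h0 hg
  rw [pow_one] at h1
  exact h1.mem

end gen

/-- the exponents -/
def pat (r s t : ℕ) : List (ℤ × ℤ) :=
  ((r * s : ℤ), -((r : ℤ) * (s * (r - t) - t) - (r - 1))) ::
    (List.replicate t (-(r : ℤ), (-1 : ℤ)) ++ List.replicate (r - t - 1) ((r * s : ℤ), (-1 : ℤ)))

theorem pat_fst (r s t : ℕ) (h : t < r) :
    (((pat r s t).map Prod.fst : List ℤ) : Multiset ℤ) =
      t • {-(r : ℤ)} + (r - t) • {(r * s : ℤ)} := by
  obtain ⟨d, rfl⟩ : ∃ d, r = t + d + 1 := ⟨r - t - 1, by omega⟩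
  have e1 : t + d + 1 - t - 1 = d := by omega
  have e2 : t + d + 1 - t = d + 1 := by omega
  rw [pat, e1, e2, List.map_cons, List.map_append, List.map_replicate, List.map_replicate,
    ← Multiset.cons_coe, ← Multiset.coe_add, Multiset.coe_replicate, Multiset.coe_replicate,
    Multiset.nsmul_singleton, Multiset.nsmul_singleton, Multiset.replicate_succ, Multiset.add_cons]

theorem pat_sum (r s t : ℕ) (h : t < r) :
    ((pat r s t).map Prod.snd).sum + ((pat r s t).map Prod.fst).sum = 0 := by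
  obtain ⟨d, rfl⟩ : ∃ d, r = t + d + 1 := ⟨r - t - 1, by omega⟩
  have e1 : t + d + 1 - t - 1 = d := by omega
  rw [pat, e1]
  simp only [List.map_cons, List.map_append, List.map_replicate, List.sum_cons, List.sum_append,
    List.sum_replicate, nsmul_eq_mul]
  push_cast
  ring

theorem pat_ne (r s t : ℕ) (h : t < r) (hs : t < s) : ∀ p ∈ pat r s t, p.1 ≠ 0 ∧ p.2 ≠ 0 := by
  intro p hp
  have hr : (0 : ℤ) < r := by omega
  have hs' : (0 : ℤ) < s := by omega
  have h1 : (r : ℤ) * s ≠ 0 := by positivity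
  rw [pat, List.mem_cons, List.mem_append, List.mem_replicate, List.mem_replicate] at hp
  rcases hp with rfl | ⟨_, rfl⟩ | ⟨_, rfl⟩
  · refine ⟨h1, ?_⟩
    have h2 : (1 : ℤ) ≤ s * (r - t) - t := by
      have : (t : ℤ) + 1 ≤ r := by omega
      have h3 : (t : ℤ) + 1 ≤ s := by omega
      nlinarith
    have h3 : (r : ℤ) ≤ r * (s * (r - t) - t) := by nlinarith
    change -((r : ℤ) * (s * (r - t) - t) - (r - 1)) ≠ 0
    omega
  · exact ⟨by change -(r : ℤ) ≠ 0; omega, by change (-1 : ℤ) ≠ 0; omega⟩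
  · exact ⟨h1, by change (-1 : ℤ) ≠ 0; omega⟩

theorem pat_val (r s t : ℕ) (h : t < r) (hs : t < s) :
    ((pat r s t).map fun p => F (r * s) p.1 + H 1 p.2).sum = r - (t : ℚ) / s := by
  obtain ⟨d, rfl⟩ : ∃ d, r = t + d + 1 := ⟨r - t - 1, by omega⟩
  have e1 : t + d + 1 - t - 1 = d := by omega
  have hs0 : (0 : ℚ) < s := by
    have : 0 < s := by omega
    exact_mod_cast this
  have hr0 : (0 : ℚ) < ((t + d + 1 : ℕ) : ℚ) := by positivity
  have f1 : F ((t + d + 1) * s) (((t + d + 1 : ℕ) : ℤ) * s) = 1 / 2 := by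
    unfold F
    have : (0 : ℤ) < ((t + d + 1 : ℕ) : ℤ) * s := by
      have : 0 < s := by omega
      positivity
    rw [if_pos this]
    push_cast
    rw [div_self (by push_cast at hr0; positivity)]
    norm_num
  have f2 : F ((t + d + 1) * s) (-((t + d + 1 : ℕ) : ℤ)) = 1 / 2 - 1 / s := by
    unfold F
    rw [if_neg (by omega), if_pos (by omega)]
    have e2 : (-(((-((t + d + 1 : ℕ) : ℤ)) : ℤ) : ℚ)) / (((t + d + 1) * s : ℕ) : ℚ) = 1 / s := by
      push_cast
      push_cast at hr0
      field_simp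
    rw [e2]
    have h3 : (1 : ℚ) / s ≤ 1 := by
      rw [div_le_one hs0]
      have : 1 ≤ s := by omega
      exact_mod_cast this
    rw [min_eq_right (by linarith)]
    ring
  have hF1 : ∀ q : ℤ, q < 0 → H 1 q = 1 / 2 := by
    intro q hq
    unfold H F
    rw [if_neg (by omega), if_pos hq, neg_neg, min_eq_left]
    have : (q : ℚ) ≤ -1 := by exact_mod_cast (by omega : q ≤ -1)
    norm_num
    linarith
  have g1 : H 1 (-1) = 1 / 2 := hF1 _ (by norm_num)
  have g2 : H 1 (-(((t + d + 1 : ℕ) : ℤ) * (s * (((t + d + 1 : ℕ) : ℤ) - t) - t) -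
      (((t + d + 1 : ℕ) : ℤ) - 1))) = 1 / 2 := by
    apply hF1
    have h2 : (1 : ℤ) ≤ s * (((t + d + 1 : ℕ) : ℤ) - t) - t := by
      have h3 : (t : ℤ) + 1 ≤ s := by omega
      have h4 : (1 : ℤ) ≤ ((t + d + 1 : ℕ) : ℤ) - t := by omega
      nlinarith
    have h3 : ((t + d + 1 : ℕ) : ℤ) ≤ ((t + d + 1 : ℕ) : ℤ) *
        (s * (((t + d + 1 : ℕ) : ℤ) - t) - t) := by nlinarith
    omega
  rw [pat, e1]
  simp only [List.map_cons, List.map_append, List.map_replicate, List.sum_cons, List.sum_append,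
    List.sum_replicate, nsmul_eq_mul, f1, f2, g1, g2]
  push_cast
  ring

/-- the exact commutator length of the powers of the words of the family -/
theorem one_sided (m k r t c : ℕ) (hk : 2 ≤ k) (ht : t < r) (hts : t < 2 * c)
    (h1 : 2 * c * (m * r) ≤ 2 * c * (2 * k - 1) + m * t)
    (h2 : 2 * c * (2 * k - 1) + m * t < 2 * c * (m * r) + 2 * (2 * c)) :
    ∃ w ∈ commutator (FreeGroup Bool), PC k (w ^ m) ∧ ∀ g, PC g (w ^ m) → k ≤ g := by
  refine ⟨wd (of false) (of true) (pat r (2 * c) t), wd_mem _ _ (pat_sum r _ t ht), ?_, ?_⟩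
  · apply PC_of_BM _ _ (pat_sum r _ t ht)
    rw [pat_fst r _ t ht]
    have hc : 0 < c := by omega
    rcases Nat.lt_or_ge (m * r) (2 * k - 1) with h3 | h3
    · -- `2 k - 1 = m r + 1`
      have h4 : 2 * k - 1 = m * r + 1 := by
        by_contra hne
        have h5 : m * r + 2 ≤ 2 * k - 1 := by omega
        have h6 : 2 * c * (m * r + 2) ≤ 2 * c * (2 * k - 1) := Nat.mul_le_mul_left _ h5
        have h7 : 2 * c * (m * r + 2) = 2 * c * (m * r) + 2 * (2 * c) := by ring
        omega
      apply BM.insert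
      have h5 := BM.odd (of false) (of true) (k - 1)
        (0 ::ₘ m • (t • {-(r : ℤ)} + (r - t) • {((r : ℤ) * ((2 * c : ℕ) : ℤ))})) (by
          simp only [Multiset.card_cons, Multiset.card_nsmul, Multiset.card_add,
            Multiset.card_singleton, smul_eq_mul, mul_one]
          have : t + (r - t) = r := by omega
          rw [this]
          omega)
      rw [show k - 1 + 1 = k by omega] at h5
      exact h5
    · obtain ⟨D, hD⟩ : ∃ D, m * r = (2 * k - 1) + D := ⟨m * r - (2 * k - 1), by omega⟩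
      have h4 : 2 * c * D ≤ m * t := by
        have : 2 * c * (m * r) = 2 * c * (2 * k - 1) + 2 * c * D := by rw [hD]; ring
        omega
      have h5 : D ≤ m * (r - t) := by
        have h6 : 2 * c * D ≤ 2 * c * m := by
          calc 2 * c * D ≤ m * t := h4
            _ ≤ m * (2 * c) := Nat.mul_le_mul_left _ (by omega)
            _ = 2 * c * m := by ring
        have h7 : D ≤ m := Nat.le_of_mul_le_mul_left h6 (by omega)
        calc D ≤ m := h7
          _ ≤ m * (r - t) := Nat.le_mul_of_pos_right _ (by omega)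
      obtain ⟨x, hx⟩ : ∃ x, m * t = D * (2 * c) + x := ⟨m * t - D * (2 * c), by
        have : 2 * c * D = D * (2 * c) := by ring
        omega⟩
      obtain ⟨y, hy⟩ : ∃ y, m * (r - t) = D + y := ⟨m * (r - t) - D, by omega⟩
      have h6 : m * r = m * t + m * (r - t) := by
        rw [← Nat.mul_add]; congr 1; omega
      have h7 : x + y = 2 * k - 1 - D * (2 * c) := by omega
      have h8 : D * (2 * c) = 2 * (D * c) := by ring
      have h9 := BM.blocks (of false) (of true) c (k - 1 - D * c)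
        ((2 * c) • {-(r : ℤ)} + {((r : ℤ) * ((2 * c : ℕ) : ℤ))})
        (x • {-(r : ℤ)} + y • {((r : ℤ) * ((2 * c : ℕ) : ℤ))}) (by simp)
        (by
          rw [Multiset.sum_add, Multiset.sum_nsmul, Multiset.sum_singleton,
            Multiset.sum_singleton, nsmul_eq_mul]
          push_cast
          ring)
        (by simp; omega) D
      have e1 : m • (t • ({-(r : ℤ)} : Multiset ℤ) + (r - t) • {((r : ℤ) * ((2 * c : ℕ) : ℤ))}) =
          D • ((2 * c) • {-(r : ℤ)} + {((r : ℤ) * ((2 * c : ℕ) : ℤ))}) +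
          (x • {-(r : ℤ)} + y • {((r : ℤ) * ((2 * c : ℕ) : ℤ))}) := by
        rw [nsmul_add, nsmul_add, ← mul_nsmul', ← mul_nsmul', ← mul_nsmul', hx, hy, add_nsmul,
          add_nsmul]
        abel
      rw [e1]
      have e2 : k - 1 - D * c + 1 + D * c = k := by omega
      rw [e2] at h9
      exact h9
  · intro g hg
    have hval := pat_val r (2 * c) t ht hts
    have hc : 0 < c := by omega
    have hc' : (0 : ℚ) < ((2 * c : ℕ) : ℚ) := by exact_mod_cast (by omega : 0 < 2 * c)
    have key : ∀ g', PC (g' + 1) (wd (of false) (of true) (pat r (2 * c) t) ^ m) →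
        2 * c * (m * r) ≤ 2 * c * (2 * g' + 1) + m * t := by
      intro g' hg'
      have h3 := lower (r * (2 * c), 1) _ (pat_ne r _ t ht hts) m g' hg'
      rw [hval] at h3
      have h4 : ((2 * c : ℕ) : ℚ) * (m * (r - t / ((2 * c : ℕ) : ℚ))) ≤
          ((2 * c : ℕ) : ℚ) * (2 * g' + 1) := mul_le_mul_of_nonneg_left h3 hc'.le
      have h5 : ((2 * c : ℕ) : ℚ) * (m * (r - t / ((2 * c : ℕ) : ℚ))) =
          ((2 * c : ℕ) : ℚ) * (m * r) - m * t := by
        field_simp
      rw [h5] at h4
      have h6 : (((2 * c * (m * r) : ℕ)) : ℚ) ≤ ((2 * c * (2 * g' + 1) + m * t : ℕ) : ℚ) := by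
        push_cast at h4 ⊢
        linarith
      exact_mod_cast h6
    rcases g with _ | g
    · have h3 := key 0 (hg.mono (by omega))
      exfalso
      have h4 : 2 * c * (2 * k - 1) < 2 * c * 3 := by omega
      have h5 := Nat.lt_of_mul_lt_mul_left h4
      omega
    · have h3 := key g hg
      have h4 : 2 * c * (2 * k - 1) < 2 * c * (2 * g + 3) := by
        have : 2 * c * (2 * g + 3) = 2 * c * (2 * g + 1) + 2 * (2 * c) := by ring
        omega
      have h5 := Nat.lt_of_mul_lt_mul_left h4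
      omega

end Pool.Agent.E8helper95.CL
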