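import Pool.Agent.E8helper95.CL.Chk

/-!
# Small exponents
-/

set_option autoImplicit false

open scoped commutatorElement

namespace Pool.Agent.E8helper95.CL

open FreeGroup

/-- some element of the commutator subgroup has an `m`-th power of commutator length exactly `k` -/
def Good (k m : ℕ) : Prop :=
  ∃ w ∈ commutator (FreeGroup Bool), PC k (w ^ m) ∧ ∀ g, PC g (w ^ m) → k ≤ g

theorem big (m k : ℕ) (hm : 1 ≤ m) (hk : m * m + m + 2 < 4 * k) : Good k m := by
  obtain ⟨n, hn⟩ : ∃ n, n = 2 * k - 1 := ⟨_, rfl⟩
  have hk2 : 2 ≤ k := by nlinarith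
  have hn2 : m * m + m < 2 * n := by omega
  obtain ⟨c, hc⟩ : ∃ c, c = (m + 3) / 4 := ⟨_, rfl⟩
  have hc1 : m ≤ 4 * c := by omega
  have hc2 : 4 * c ≤ m + 3 := by omega
  obtain ⟨r, hr⟩ : ∃ r, r = (n + m - 1) / m := ⟨_, rfl⟩
  have hr1 : n ≤ m * r := by
    have := Nat.lt_mul_div_succ (n + m - 1) (by omega : 0 < m)
    rw [← hr, Nat.mul_add] at this
    omega
  have hr2 : m * r < n + m := by
    have := Nat.mul_div_le (n + m - 1) m
    rw [← hr] at this
    omega
  obtain ⟨e, he⟩ : ∃ e, m * r = n + e := ⟨m * r - n, by omega⟩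
  have he1 : e < m := by omega
  obtain ⟨t, ht⟩ : ∃ t, t = (e * (2 * c) + m - 1) / m := ⟨_, rfl⟩
  have ht1 : e * (2 * c) ≤ m * t := by
    have := Nat.lt_mul_div_succ (e * (2 * c) + m - 1) (by omega : 0 < m)
    rw [← ht, Nat.mul_add] at this
    omega
  have ht2 : m * t < e * (2 * c) + m := by
    have := Nat.mul_div_le (e * (2 * c) + m - 1) m
    rw [← ht] at this
    omega
  have hr3 : m + 1 < 2 * r := by
    by_contra hcon
    have h1 : 2 * r ≤ m + 1 := by omega
    have h2 : 2 * (m * r) ≤ m * (m + 1) := by
      calc 2 * (m * r) = m * (2 * r) := by ring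
        _ ≤ m * (m + 1) := Nat.mul_le_mul_left _ h1
    have h3 : m * (m + 1) = m * m + m := by ring
    omega
  have e1 : 2 * c * (m * r) = 2 * c * n + e * (2 * c) := by rw [he]; ring
  rcases Nat.lt_or_ge t (2 * c) with h | h
  · refine one_sided m k r t c hk2 ?_ h ?_ ?_
    · omega
    · rw [← hn, e1]; omega
    · rw [← hn, e1]; omega
  · have h1 : m * (2 * c) ≤ m * t := Nat.mul_le_mul_left _ h
    have h2 : e = m - 1 := by
      by_contra hcon
      have h3 : e + 2 ≤ m := by omega
      have h4 : (e + 2) * (2 * c) ≤ m * (2 * c) := Nat.mul_le_mul_right _ h3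
      have h5 : (e + 2) * (2 * c) = e * (2 * c) + 4 * c := by ring
      omega
    have h3 : n = m * (r - 1) + 1 := by
      have : m * r = m * (r - 1) + m := by
        obtain ⟨r', rfl⟩ : ∃ r', r = r' + 1 := ⟨r - 1, by omega⟩
        simp only [Nat.add_sub_cancel]
        ring
      omega
    refine one_sided m k (r - 1) 0 c hk2 (by omega) (by omega) ?_ ?_
    · rw [← hn, h3]
      have : 2 * c * (m * (r - 1) + 1) = 2 * c * (m * (r - 1)) + 2 * c := by ring
      omega
    · rw [← hn, h3]
      have : 2 * c * (m * (r - 1) + 1) = 2 * c * (m * (r - 1)) + 2 * c := by ring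
      omega

theorem c_5_4 : Good 4 5 :=
  cert [(-2, 1), (4, -3)] 4 3 5 4
      [(2, 1, 6, 3), (6, 1, 6, 3), (0, 1, 2, 1)]
    (by norm_num) (by norm_num) (by norm_num) (by decide +kernel) (by decide +kernel)
    (by decide +kernel) (by decide +kernel) (by decide +kernel)

theorem c_7_5 : Good 5 7 :=
  cert [(-2, 1), (4, -3)] 4 3 7 5
      [(2, 1, 6, 3), (0, 7, 2, 1), (6, 1, 4, 1), (2, 1, 2, 3)]
    (by norm_num) (by norm_num) (by norm_num) (by decide +kernel) (by decide +kernel)
    (by decide +kernel) (by decide +kernel) (by decide +kernel)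

theorem c_7_9 : Good 9 7 :=
  cert [(10, -9), (10, 3), (-5, -9)] 10 9 7 9
      [(0, 1, 4, 5), (16, 1, 6, 3), (5, 1, 2, 3), (18, 3, 2, 1), (10, 3, 4, 1), (12, 2, 1, 6),
      (4, 4, 1, 4), (0, 1, 2, 1)]
    (by norm_num) (by norm_num) (by norm_num) (by decide +kernel) (by decide +kernel)
    (by decide +kernel) (by decide +kernel) (by decide +kernel)

theorem c_8_6 : Good 6 8 :=
  cert [(-2, 1), (4, -3)] 4 3 8 6
      [(2, 1, 6, 3), (19, 1, 2, 3), (1, 1, 4, 5), (1, 2, 3, 4), (0, 1, 0, 1)]
    (by norm_num) (by norm_num) (by norm_num) (by decide +kernel) (by decide +kernel)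
    (by decide +kernel) (by decide +kernel) (by decide +kernel)

theorem c_8_10 : Good 10 8 :=
  cert [(-5, -9), (10, -9), (10, 3)] 10 9 8 10
      [(4, 1, 2, 5), (35, 3, 2, 5), (19, 1, 2, 5), (28, 5, 2, 3), (19, 3, 4, 3), (12, 6, 1,
      2), (10, 4, 3, 2), (6, 2, 3, 4), (1, 1, 2, 1)]
    (by norm_num) (by norm_num) (by norm_num) (by decide +kernel) (by decide +kernel)
    (by decide +kernel) (by decide +kernel) (by decide +kernel)

theorem c_9_7 : Good 7 9 :=
  cert [(-3, 1), (6, -4)] 6 4 9 7
      [(2, 1, 6, 3), (20, 1, 4, 1), (13, 1, 4, 5), (1, 1, 6, 1), (8, 1, 4, 1), (1, 2, 3, 2)]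
    (by norm_num) (by norm_num) (by norm_num) (by decide +kernel) (by decide +kernel)
    (by decide +kernel) (by decide +kernel) (by decide +kernel)

theorem c_9_11 : Good 11 9 :=
  cert [(10, -9), (10, -9), (-5, 3)] 10 9 9 11
      [(0, 1, 4, 5), (40, 1, 2, 3), (22, 1, 2, 3), (18, 1, 4, 5), (8, 3, 4, 3), (12, 4, 1, 4),
      (9, 3, 2, 1), (13, 1, 2, 1), (0, 1, 2, 1), (1, 1, 2, 1)]
    (by norm_num) (by norm_num) (by norm_num) (by decide +kernel) (by decide +kernel)
    (by decide +kernel) (by decide +kernel) (by decide +kernel)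

theorem c_9_15 : Good 15 9 :=
  cert [(16, -15), (-8, -15), (16, 5), (16, -15)] 16 15 9 15
      [(2, 1, 8, 1), (50, 1, 2, 5), (26, 1, 2, 7), (33, 1, 6, 3), (27, 1, 4, 3), (37, 1, 8,
      1), (16, 2, 1, 6), (3, 2, 3, 4), (20, 2, 1, 2), (4, 6, 1, 2), (8, 1, 2, 1), (8, 2, 5,
      2), (11, 1, 8, 1), (0, 2, 3, 2)]
    (by norm_num) (by norm_num) (by norm_num) (by decide +kernel) (by decide +kernel)
    (by decide +kernel) (by decide +kernel) (by decide +kernel)

theorem c_10_7 : Good 7 10 :=
  cert [(-2, 1), (4, -3)] 4 3 10 7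
      [(2, 1, 6, 3), (24, 1, 2, 5), (10, 1, 8, 1), (17, 1, 6, 3), (9, 3, 6, 1), (1, 1, 2, 3)]
    (by norm_num) (by norm_num) (by norm_num) (by decide +kernel) (by decide +kernel)
    (by decide +kernel) (by decide +kernel) (by decide +kernel)

theorem c_10_9 : Good 9 10 :=
  cert [(-1, -1), (3, -1)] 3 1 10 9
      [(2, 1, 6, 3), (3, 3, 2, 3), (21, 1, 4, 3), (16, 3, 4, 3), (2, 1, 2, 7), (4, 3, 2, 5),
      (3, 3, 2, 1), (1, 1, 2, 1)]
    (by norm_num) (by norm_num) (by norm_num) (by decide +kernel) (by decide +kernel)
    (by decide +kernel) (by decide +kernel) (by decide +kernel)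

theorem c_10_12 : Good 12 10 :=
  cert [(-5, -9), (10, -9), (10, 3)] 10 9 10 12
      [(4, 1, 2, 5), (14, 1, 4, 1), (33, 4, 3, 2), (13, 1, 2, 5), (17, 3, 4, 3), (13, 3, 2,
      3), (2, 3, 4, 1), (13, 2, 3, 4), (7, 3, 6, 1), (7, 2, 1, 4), (1, 1, 2, 1)]
    (by norm_num) (by norm_num) (by norm_num) (by decide +kernel) (by decide +kernel)
    (by decide +kernel) (by decide +kernel) (by decide +kernel)

theorem c_11_8 : Good 8 11 :=
  cert [(-3, 1), (6, -4)] 6 4 11 8
      [(2, 1, 6, 3), (20, 1, 4, 1), (10, 1, 2, 7), (22, 1, 4, 5), (5, 1, 6, 3), (5, 2, 1, 2),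
      (1, 1, 2, 3)]
    (by norm_num) (by norm_num) (by norm_num) (by decide +kernel) (by decide +kernel)
    (by decide +kernel) (by decide +kernel) (by decide +kernel)

theorem c_11_10 : Good 10 11 :=
  cert [(-1, -1), (3, -1)] 3 1 11 10
      [(2, 1, 6, 3), (2, 2, 3, 4), (2, 1, 4, 3), (5, 1, 2, 7), (19, 1, 6, 3), (10, 3, 4, 3),
      (0, 1, 2, 7), (0, 3, 4, 1), (1, 1, 2, 1)]
    (by norm_num) (by norm_num) (by norm_num) (by decide +kernel) (by decide +kernel)
    (by decide +kernel) (by decide +kernel) (by decide +kernel)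

theorem c_11_13 : Good 13 11 :=
  cert [(-3, -10), (9, -10), (9, 5)] 9 10 11 13
      [(0, 5, 2, 1), (6, 1, 2, 3), (2, 1, 4, 5), (9, 1, 2, 3), (2, 1, 4, 5), (10, 3, 2, 5),
      (1, 1, 4, 1), (10, 2, 5, 2), (16, 3, 4, 3), (6, 1, 2, 1), (1, 1, 4, 3), (1, 1, 2, 1)]
    (by norm_num) (by norm_num) (by norm_num) (by decide +kernel) (by decide +kernel)
    (by decide +kernel) (by decide +kernel) (by decide +kernel)

theorem c_11_14 : Good 14 11 :=
  cert [(-3, -1), (9, -1), (-3, -1)] 9 1 11 14
      [(4, 2, 3, 2), (0, 1, 4, 1), (0, 1, 4, 5), (14, 4, 3, 2), (38, 1, 4, 5), (36, 1, 6, 1),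
      (1, 1, 4, 3), (21, 1, 2, 5), (4, 1, 4, 3), (16, 1, 6, 3), (12, 1, 2, 1), (8, 1, 4, 3),
      (1, 1, 2, 1)]
    (by norm_num) (by norm_num) (by norm_num) (by decide +kernel) (by decide +kernel)
    (by decide +kernel) (by decide +kernel) (by decide +kernel)

theorem c_11_18 : Good 18 11 :=
  cert [(3, -20), (3, 4), (3, 4), (-1, 4)] 3 20 11 18
      [(5, 1, 2, 3), (56, 3, 2, 3), (69, 1, 8, 1), (71, 1, 2, 7), (8, 2, 1, 4), (60, 1, 6, 1),
      (43, 1, 2, 7), (26, 5, 2, 3), (4, 1, 2, 7), (0, 5, 2, 1), (24, 1, 4, 5), (2, 5, 2, 3),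
      (6, 1, 4, 1), (6, 1, 8, 1), (13, 5, 4, 1), (4, 1, 2, 5), (1, 1, 2, 1)]
    (by norm_num) (by norm_num) (by norm_num) (by decide +kernel) (by decide +kernel)
    (by decide +kernel) (by decide +kernel) (by decide +kernel)

theorem c_12_8 : Good 8 12 :=
  cert [(-2, 1), (4, -3)] 4 3 12 8
      [(2, 1, 6, 3), (32, 1, 2, 5), (8, 1, 6, 3), (18, 3, 4, 3), (12, 1, 2, 5), (10, 1, 2, 3),
      (0, 4, 3, 2)]
    (by norm_num) (by norm_num) (by norm_num) (by decide +kernel) (by decide +kernel)
    (by decide +kernel) (by decide +kernel) (by decide +kernel)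

theorem c_12_9 : Good 9 12 :=
  cert [(-4, 1), (8, -5)] 8 5 12 9
      [(2, 1, 6, 3), (20, 1, 4, 1), (14, 1, 2, 7), (5, 1, 4, 3), (2, 3, 2, 5), (10, 3, 6, 1),
      (9, 5, 2, 1), (1, 2, 3, 2)]
    (by norm_num) (by norm_num) (by norm_num) (by decide +kernel) (by decide +kernel)
    (by decide +kernel) (by decide +kernel) (by decide +kernel)

theorem c_12_14 : Good 14 12 :=
  cert [(9, -10), (9, 5), (-3, -10)] 9 10 12 14
      [(3, 1, 2, 3), (2, 1, 4, 5), (35, 1, 4, 5), (43, 1, 2, 5), (29, 1, 4, 5), (35, 2, 5, 2),
      (20, 2, 1, 2), (3, 5, 2, 3), (6, 2, 1, 6), (16, 4, 1, 4), (1, 5, 4, 1), (11, 6, 1, 2),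
      (0, 2, 3, 2)]
    (by norm_num) (by norm_num) (by norm_num) (by decide +kernel) (by decide +kernel)
    (by decide +kernel) (by decide +kernel) (by decide +kernel)

theorem c_12_15 : Good 15 12 :=
  cert [(-3, -1), (9, -1), (-3, -1)] 9 1 12 15
      [(4, 2, 3, 2), (62, 1, 8, 1), (0, 1, 4, 1), (3, 1, 2, 3), (49, 1, 4, 1), (36, 1, 6, 3),
      (16, 1, 4, 5), (7, 1, 2, 7), (24, 1, 8, 1), (14, 5, 2, 1), (18, 1, 6, 1), (8, 3, 2, 5),
      (2, 4, 3, 2), (1, 1, 1, 2)]
    (by norm_num) (by norm_num) (by norm_num) (by decide +kernel) (by decide +kernel)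
    (by decide +kernel) (by decide +kernel) (by decide +kernel)

theorem c_12_21 : Good 21 12 :=
  cert [(3, -1), (-1, -1), (-1, -1), (3, -1)] 3 1 12 21
      [(6, 3, 2, 5), (0, 1, 4, 3), (37, 4, 1, 2), (77, 4, 3, 2), (63, 1, 6, 3), (65, 1, 4, 3),
      (64, 1, 2, 7), (23, 5, 2, 1), (47, 7, 2, 1), (4, 1, 4, 5), (38, 3, 6, 1), (6, 1, 2, 7),
      (3, 1, 2, 7), (19, 3, 4, 1), (9, 2, 3, 2), (8, 1, 4, 3), (15, 5, 4, 1), (2, 1, 2, 3),
      (0, 2, 1, 2), (0, 1, 2, 1)]
    (by norm_num) (by norm_num) (by norm_num) (by decide +kernel) (by decide +kernel)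
    (by decide +kernel) (by decide +kernel) (by decide +kernel)

theorem small_2 (k : ℕ) (hk : 2 ≤ k) : Good k 2 := by
  rcases Nat.lt_or_ge 2 k with h | h
  · exact big 2 k (by norm_num) (by omega)
  · interval_cases k
    · exact one_sided 2 2 1 0 1 (by norm_num) (by norm_num) (by norm_num) (by norm_num)
        (by norm_num)

theorem small_3 (k : ℕ) (hk : 2 ≤ k) : Good k 3 := by
  rcases Nat.lt_or_ge 3 k with h | h
  · exact big 3 k (by norm_num) (by omega)
  · interval_cases k
    · exact one_sided 3 2 1 0 1 (by norm_num) (by norm_num) (by norm_num) (by norm_num)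
        (by norm_num)
    · exact one_sided 3 3 2 1 1 (by norm_num) (by norm_num) (by norm_num) (by norm_num)
        (by norm_num)

theorem small_4 (k : ℕ) (hk : 3 ≤ k) : Good k 4 := by
  rcases Nat.lt_or_ge 5 k with h | h
  · exact big 4 k (by norm_num) (by omega)
  · interval_cases k
    · exact one_sided 4 3 1 0 1 (by norm_num) (by norm_num) (by norm_num) (by norm_num)
        (by norm_num)
    · exact one_sided 4 4 2 1 1 (by norm_num) (by norm_num) (by norm_num) (by norm_num)
        (by norm_num)
    · exact one_sided 4 5 2 0 1 (by norm_num) (by norm_num) (by norm_num) (by norm_num)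
        (by norm_num)

theorem small_5 (k : ℕ) (hk : 3 ≤ k) : Good k 5 := by
  rcases Nat.lt_or_ge 8 k with h | h
  · exact big 5 k (by norm_num) (by omega)
  · interval_cases k
    · exact one_sided 5 3 1 0 1 (by norm_num) (by norm_num) (by norm_num) (by norm_num)
        (by norm_num)
    · exact c_5_4
    · exact one_sided 5 5 2 1 1 (by norm_num) (by norm_num) (by norm_num) (by norm_num)
        (by norm_num)
    · exact one_sided 5 6 2 0 1 (by norm_num) (by norm_num) (by norm_num) (by norm_num)
        (by norm_num)
    · exact one_sided 5 7 3 1 1 (by norm_num) (by norm_num) (by norm_num) (by norm_num)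
        (by norm_num)
    · exact one_sided 5 8 3 0 1 (by norm_num) (by norm_num) (by norm_num) (by norm_num)
        (by norm_num)

theorem small_6 (k : ℕ) (hk : 4 ≤ k) : Good k 6 := by
  rcases Nat.lt_or_ge 11 k with h | h
  · exact big 6 k (by norm_num) (by omega)
  · interval_cases k
    · exact one_sided 6 4 1 0 1 (by norm_num) (by norm_num) (by norm_num) (by norm_num)
        (by norm_num)
    · exact one_sided 6 5 2 1 1 (by norm_num) (by norm_num) (by norm_num) (by norm_num)
        (by norm_num)
    · exact one_sided 6 6 2 1 2 (by norm_num) (by norm_num) (by norm_num) (by norm_num)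
        (by norm_num)
    · exact one_sided 6 7 2 0 1 (by norm_num) (by norm_num) (by norm_num) (by norm_num)
        (by norm_num)
    · exact one_sided 6 8 3 1 1 (by norm_num) (by norm_num) (by norm_num) (by norm_num)
        (by norm_num)
    · exact one_sided 6 9 3 1 2 (by norm_num) (by norm_num) (by norm_num) (by norm_num)
        (by norm_num)
    · exact one_sided 6 10 3 0 1 (by norm_num) (by norm_num) (by norm_num) (by norm_num)
        (by norm_num)
    · exact one_sided 6 11 4 1 1 (by norm_num) (by norm_num) (by norm_num) (by norm_num)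
        (by norm_num)

theorem small_7 (k : ℕ) (hk : 4 ≤ k) : Good k 7 := by
  rcases Nat.lt_or_ge 14 k with h | h
  · exact big 7 k (by norm_num) (by omega)
  · interval_cases k
    · exact one_sided 7 4 1 0 1 (by norm_num) (by norm_num) (by norm_num) (by norm_num)
        (by norm_num)
    · exact c_7_5
    · exact one_sided 7 6 2 1 1 (by norm_num) (by norm_num) (by norm_num) (by norm_num)
        (by norm_num)
    · exact one_sided 7 7 2 1 2 (by norm_num) (by norm_num) (by norm_num) (by norm_num)
        (by norm_num)
    · exact one_sided 7 8 2 0 1 (by norm_num) (by norm_num) (by norm_num) (by norm_num)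
        (by norm_num)
    · exact c_7_9
    · exact one_sided 7 10 3 1 1 (by norm_num) (by norm_num) (by norm_num) (by norm_num)
        (by norm_num)
    · exact one_sided 7 11 3 0 1 (by norm_num) (by norm_num) (by norm_num) (by norm_num)
        (by norm_num)
    · exact one_sided 7 12 4 3 2 (by norm_num) (by norm_num) (by norm_num) (by norm_num)
        (by norm_num)
    · exact one_sided 7 13 4 1 1 (by norm_num) (by norm_num) (by norm_num) (by norm_num)
        (by norm_num)
    · exact one_sided 7 14 4 1 2 (by norm_num) (by norm_num) (by norm_num) (by norm_num)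
        (by norm_num)

theorem small_8 (k : ℕ) (hk : 5 ≤ k) : Good k 8 := by
  rcases Nat.lt_or_ge 18 k with h | h
  · exact big 8 k (by norm_num) (by omega)
  · interval_cases k
    · exact one_sided 8 5 1 0 1 (by norm_num) (by norm_num) (by norm_num) (by norm_num)
        (by norm_num)
    · exact c_8_6
    · exact one_sided 8 7 2 1 1 (by norm_num) (by norm_num) (by norm_num) (by norm_num)
        (by norm_num)
    · exact one_sided 8 8 2 1 2 (by norm_num) (by norm_num) (by norm_num) (by norm_num)
        (by norm_num)
    · exact one_sided 8 9 2 0 1 (by norm_num) (by norm_num) (by norm_num) (by norm_num)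
        (by norm_num)
    · exact c_8_10
    · exact one_sided 8 11 3 1 1 (by norm_num) (by norm_num) (by norm_num) (by norm_num)
        (by norm_num)
    · exact one_sided 8 12 3 1 2 (by norm_num) (by norm_num) (by norm_num) (by norm_num)
        (by norm_num)
    · exact one_sided 8 13 3 0 1 (by norm_num) (by norm_num) (by norm_num) (by norm_num)
        (by norm_num)
    · exact one_sided 8 14 4 3 2 (by norm_num) (by norm_num) (by norm_num) (by norm_num)
        (by norm_num)
    · exact one_sided 8 15 4 1 1 (by norm_num) (by norm_num) (by norm_num) (by norm_num)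
        (by norm_num)
    · exact one_sided 8 16 4 1 2 (by norm_num) (by norm_num) (by norm_num) (by norm_num)
        (by norm_num)
    · exact one_sided 8 17 4 0 1 (by norm_num) (by norm_num) (by norm_num) (by norm_num)
        (by norm_num)
    · exact one_sided 8 18 5 3 2 (by norm_num) (by norm_num) (by norm_num) (by norm_num)
        (by norm_num)

theorem small_9 (k : ℕ) (hk : 5 ≤ k) (h6 : k ≠ 6) : Good k 9 := by
  rcases Nat.lt_or_ge 23 k with h | h
  · exact big 9 k (by norm_num) (by omega)
  · interval_cases k
    · exact one_sided 9 5 1 0 1 (by norm_num) (by norm_num) (by norm_num) (by norm_num)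
        (by norm_num)
    · exact absurd rfl h6
    · exact c_9_7
    · exact one_sided 9 8 2 1 1 (by norm_num) (by norm_num) (by norm_num) (by norm_num)
        (by norm_num)
    · exact one_sided 9 9 2 1 2 (by norm_num) (by norm_num) (by norm_num) (by norm_num)
        (by norm_num)
    · exact one_sided 9 10 2 0 1 (by norm_num) (by norm_num) (by norm_num) (by norm_num)
        (by norm_num)
    · exact c_9_11
    · exact one_sided 9 12 3 1 1 (by norm_num) (by norm_num) (by norm_num) (by norm_num)
        (by norm_num)
    · exact one_sided 9 13 3 1 2 (by norm_num) (by norm_num) (by norm_num) (by norm_num)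
        (by norm_num)
    · exact one_sided 9 14 3 0 1 (by norm_num) (by norm_num) (by norm_num) (by norm_num)
        (by norm_num)
    · exact c_9_15
    · exact one_sided 9 16 4 3 2 (by norm_num) (by norm_num) (by norm_num) (by norm_num)
        (by norm_num)
    · exact one_sided 9 17 4 1 1 (by norm_num) (by norm_num) (by norm_num) (by norm_num)
        (by norm_num)
    · exact one_sided 9 18 4 1 2 (by norm_num) (by norm_num) (by norm_num) (by norm_num)
        (by norm_num)
    · exact one_sided 9 19 4 0 1 (by norm_num) (by norm_num) (by norm_num) (by norm_num)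
        (by norm_num)
    · exact one_sided 9 20 5 3 2 (by norm_num) (by norm_num) (by norm_num) (by norm_num)
        (by norm_num)
    · exact one_sided 9 21 5 1 1 (by norm_num) (by norm_num) (by norm_num) (by norm_num)
        (by norm_num)
    · exact one_sided 9 22 5 1 2 (by norm_num) (by norm_num) (by norm_num) (by norm_num)
        (by norm_num)
    · exact one_sided 9 23 5 0 1 (by norm_num) (by norm_num) (by norm_num) (by norm_num)
        (by norm_num)

theorem small_10 (k : ℕ) (hk : 6 ≤ k) : Good k 10 := by
  rcases Nat.lt_or_ge 28 k with h | h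
  · exact big 10 k (by norm_num) (by omega)
  · interval_cases k
    · exact one_sided 10 6 1 0 1 (by norm_num) (by norm_num) (by norm_num) (by norm_num)
        (by norm_num)
    · exact c_10_7
    · exact one_sided 10 8 2 1 1 (by norm_num) (by norm_num) (by norm_num) (by norm_num)
        (by norm_num)
    · exact c_10_9
    · exact one_sided 10 10 2 1 2 (by norm_num) (by norm_num) (by norm_num) (by norm_num)
        (by norm_num)
    · exact one_sided 10 11 2 0 1 (by norm_num) (by norm_num) (by norm_num) (by norm_num)
        (by norm_num)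
    · exact c_10_12
    · exact one_sided 10 13 3 1 1 (by norm_num) (by norm_num) (by norm_num) (by norm_num)
        (by norm_num)
    · exact one_sided 10 14 3 2 3 (by norm_num) (by norm_num) (by norm_num) (by norm_num)
        (by norm_num)
    · exact one_sided 10 15 3 1 2 (by norm_num) (by norm_num) (by norm_num) (by norm_num)
        (by norm_num)
    · exact one_sided 10 16 3 0 1 (by norm_num) (by norm_num) (by norm_num) (by norm_num)
        (by norm_num)
    · exact one_sided 10 17 4 3 2 (by norm_num) (by norm_num) (by norm_num) (by norm_num)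
        (by norm_num)
    · exact one_sided 10 18 4 1 1 (by norm_num) (by norm_num) (by norm_num) (by norm_num)
        (by norm_num)
    · exact one_sided 10 19 4 2 3 (by norm_num) (by norm_num) (by norm_num) (by norm_num)
        (by norm_num)
    · exact one_sided 10 20 4 1 2 (by norm_num) (by norm_num) (by norm_num) (by norm_num)
        (by norm_num)
    · exact one_sided 10 21 4 0 1 (by norm_num) (by norm_num) (by norm_num) (by norm_num)
        (by norm_num)
    · exact one_sided 10 22 5 3 2 (by norm_num) (by norm_num) (by norm_num) (by norm_num)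
        (by norm_num)
    · exact one_sided 10 23 5 1 1 (by norm_num) (by norm_num) (by norm_num) (by norm_num)
        (by norm_num)
    · exact one_sided 10 24 5 2 3 (by norm_num) (by norm_num) (by norm_num) (by norm_num)
        (by norm_num)
    · exact one_sided 10 25 5 1 2 (by norm_num) (by norm_num) (by norm_num) (by norm_num)
        (by norm_num)
    · exact one_sided 10 26 5 0 1 (by norm_num) (by norm_num) (by norm_num) (by norm_num)
        (by norm_num)
    · exact one_sided 10 27 6 3 2 (by norm_num) (by norm_num) (by norm_num) (by norm_num)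
        (by norm_num)
    · exact one_sided 10 28 6 1 1 (by norm_num) (by norm_num) (by norm_num) (by norm_num)
        (by norm_num)

theorem small_11 (k : ℕ) (hk : 6 ≤ k) (h7 : k ≠ 7) : Good k 11 := by
  rcases Nat.lt_or_ge 33 k with h | h
  · exact big 11 k (by norm_num) (by omega)
  · interval_cases k
    · exact one_sided 11 6 1 0 1 (by norm_num) (by norm_num) (by norm_num) (by norm_num)
        (by norm_num)
    · exact absurd rfl h7
    · exact c_11_8
    · exact one_sided 11 9 2 1 1 (by norm_num) (by norm_num) (by norm_num) (by norm_num)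
        (by norm_num)
    · exact c_11_10
    · exact one_sided 11 11 2 1 2 (by norm_num) (by norm_num) (by norm_num) (by norm_num)
        (by norm_num)
    · exact one_sided 11 12 2 0 1 (by norm_num) (by norm_num) (by norm_num) (by norm_num)
        (by norm_num)
    · exact c_11_13
    · exact c_11_14
    · exact one_sided 11 15 3 1 1 (by norm_num) (by norm_num) (by norm_num) (by norm_num)
        (by norm_num)
    · exact one_sided 11 16 3 1 2 (by norm_num) (by norm_num) (by norm_num) (by norm_num)
        (by norm_num)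
    · exact one_sided 11 17 3 0 1 (by norm_num) (by norm_num) (by norm_num) (by norm_num)
        (by norm_num)
    · exact c_11_18
    · exact one_sided 11 19 4 3 2 (by norm_num) (by norm_num) (by norm_num) (by norm_num)
        (by norm_num)
    · exact one_sided 11 20 4 1 1 (by norm_num) (by norm_num) (by norm_num) (by norm_num)
        (by norm_num)
    · exact one_sided 11 21 4 2 3 (by norm_num) (by norm_num) (by norm_num) (by norm_num)
        (by norm_num)
    · exact one_sided 11 22 4 1 2 (by norm_num) (by norm_num) (by norm_num) (by norm_num)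
        (by norm_num)
    · exact one_sided 11 23 4 0 1 (by norm_num) (by norm_num) (by norm_num) (by norm_num)
        (by norm_num)
    · exact one_sided 11 24 5 3 2 (by norm_num) (by norm_num) (by norm_num) (by norm_num)
        (by norm_num)
    · exact one_sided 11 25 5 4 3 (by norm_num) (by norm_num) (by norm_num) (by norm_num)
        (by norm_num)
    · exact one_sided 11 26 5 1 1 (by norm_num) (by norm_num) (by norm_num) (by norm_num)
        (by norm_num)
    · exact one_sided 11 27 5 1 2 (by norm_num) (by norm_num) (by norm_num) (by norm_num)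
        (by norm_num)
    · exact one_sided 11 28 5 0 1 (by norm_num) (by norm_num) (by norm_num) (by norm_num)
        (by norm_num)
    · exact one_sided 11 29 6 5 3 (by norm_num) (by norm_num) (by norm_num) (by norm_num)
        (by norm_num)
    · exact one_sided 11 30 6 3 2 (by norm_num) (by norm_num) (by norm_num) (by norm_num)
        (by norm_num)
    · exact one_sided 11 31 6 1 1 (by norm_num) (by norm_num) (by norm_num) (by norm_num)
        (by norm_num)
    · exact one_sided 11 32 6 2 3 (by norm_num) (by norm_num) (by norm_num) (by norm_num)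
        (by norm_num)
    · exact one_sided 11 33 6 1 2 (by norm_num) (by norm_num) (by norm_num) (by norm_num)
        (by norm_num)

theorem small_12 (k : ℕ) (hk : 7 ≤ k) : Good k 12 := by
  rcases Nat.lt_or_ge 39 k with h | h
  · exact big 12 k (by norm_num) (by omega)
  · interval_cases k
    · exact one_sided 12 7 1 0 1 (by norm_num) (by norm_num) (by norm_num) (by norm_num)
        (by norm_num)
    · exact c_12_8
    · exact c_12_9
    · exact one_sided 12 10 2 1 1 (by norm_num) (by norm_num) (by norm_num) (by norm_num)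
        (by norm_num)
    · exact one_sided 12 11 2 1 2 (by norm_num) (by norm_num) (by norm_num) (by norm_num)
        (by norm_num)
    · exact one_sided 12 12 2 1 3 (by norm_num) (by norm_num) (by norm_num) (by norm_num)
        (by norm_num)
    · exact one_sided 12 13 2 0 1 (by norm_num) (by norm_num) (by norm_num) (by norm_num)
        (by norm_num)
    · exact c_12_14
    · exact c_12_15
    · exact one_sided 12 16 3 1 1 (by norm_num) (by norm_num) (by norm_num) (by norm_num)
        (by norm_num)
    · exact one_sided 12 17 3 1 2 (by norm_num) (by norm_num) (by norm_num) (by norm_num)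
        (by norm_num)
    · exact one_sided 12 18 3 1 3 (by norm_num) (by norm_num) (by norm_num) (by norm_num)
        (by norm_num)
    · exact one_sided 12 19 3 0 1 (by norm_num) (by norm_num) (by norm_num) (by norm_num)
        (by norm_num)
    · exact one_sided 12 20 4 3 2 (by norm_num) (by norm_num) (by norm_num) (by norm_num)
        (by norm_num)
    · exact c_12_21
    · exact one_sided 12 22 4 1 1 (by norm_num) (by norm_num) (by norm_num) (by norm_num)
        (by norm_num)
    · exact one_sided 12 23 4 1 2 (by norm_num) (by norm_num) (by norm_num) (by norm_num)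
        (by norm_num)
    · exact one_sided 12 24 4 1 3 (by norm_num) (by norm_num) (by norm_num) (by norm_num)
        (by norm_num)
    · exact one_sided 12 25 4 0 1 (by norm_num) (by norm_num) (by norm_num) (by norm_num)
        (by norm_num)
    · exact one_sided 12 26 5 3 2 (by norm_num) (by norm_num) (by norm_num) (by norm_num)
        (by norm_num)
    · exact one_sided 12 27 5 4 3 (by norm_num) (by norm_num) (by norm_num) (by norm_num)
        (by norm_num)
    · exact one_sided 12 28 5 1 1 (by norm_num) (by norm_num) (by norm_num) (by norm_num)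
        (by norm_num)
    · exact one_sided 12 29 5 1 2 (by norm_num) (by norm_num) (by norm_num) (by norm_num)
        (by norm_num)
    · exact one_sided 12 30 5 1 3 (by norm_num) (by norm_num) (by norm_num) (by norm_num)
        (by norm_num)
    · exact one_sided 12 31 5 0 1 (by norm_num) (by norm_num) (by norm_num) (by norm_num)
        (by norm_num)
    · exact one_sided 12 32 6 3 2 (by norm_num) (by norm_num) (by norm_num) (by norm_num)
        (by norm_num)
    · exact one_sided 12 33 6 4 3 (by norm_num) (by norm_num) (by norm_num) (by norm_num)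
        (by norm_num)
    · exact one_sided 12 34 6 1 1 (by norm_num) (by norm_num) (by norm_num) (by norm_num)
        (by norm_num)
    · exact one_sided 12 35 6 1 2 (by norm_num) (by norm_num) (by norm_num) (by norm_num)
        (by norm_num)
    · exact one_sided 12 36 6 1 3 (by norm_num) (by norm_num) (by norm_num) (by norm_num)
        (by norm_num)
    · exact one_sided 12 37 6 0 1 (by norm_num) (by norm_num) (by norm_num) (by norm_num)
        (by norm_num)
    · exact one_sided 12 38 7 3 2 (by norm_num) (by norm_num) (by norm_num) (by norm_num)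
        (by norm_num)
    · exact one_sided 12 39 7 4 3 (by norm_num) (by norm_num) (by norm_num) (by norm_num)
        (by norm_num)

end Pool.Agent.E8helper95.CL
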