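import Mathlib

/-!
# Products of commutators: upper bounds

`PC n z`: `z` is a product of `n` commutators. A word in `a` and `d = b a b⁻¹` is recorded by the list
of its `a`-exponents (`Ty`); the upper bound depends on the multiset of these exponents only.
-/

set_option autoImplicit false

open scoped commutatorElement

namespace Pool.Agent.E8helper95.CL

section alg

variable {G : Type*} [Group G]

/-- `z` is a product of `n` commutators -/
def PC (n : ℕ) (z : G) : Prop :=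
  ∃ L : List (G × G), L.length = n ∧ z = (L.map fun p => ⁅p.1, p.2⁆).prod

theorem PC.zero : PC 0 (1 : G) := ⟨[], rfl, rfl⟩

theorem PC.comm (u v : G) : PC 1 ⁅u, v⁆ := ⟨[(u, v)], rfl, by simp⟩

theorem PC.mul {m n : ℕ} {x y : G} (hx : PC m x) (hy : PC n y) : PC (m + n) (x * y) := by
  obtain ⟨L, h1, h2⟩ := hx
  obtain ⟨L', h1', h2'⟩ := hy
  exact ⟨L ++ L', by simp [h1, h1'], by simp [h2, h2']⟩

theorem PC.hom {H : Type*} [Group H] (f : G →* H) {n : ℕ} {x : G} (hx : PC n x) : PC n (f x) := by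
  obtain ⟨L, h1, h2⟩ := hx
  refine ⟨L.map fun p => (f p.1, f p.2), by simpa using h1, ?_⟩
  rw [h2, map_list_prod, List.map_map, List.map_map]
  congr 1
  apply List.map_congr_left
  intro p _
  simp [map_commutatorElement]

theorem PC.conj {n : ℕ} {x : G} (hx : PC n x) (g : G) : PC n (g * x * g⁻¹) := by
  have := hx.hom (MulAut.conj g).toMonoidHom
  simpa [MulAut.conj_apply] using this

theorem PC.mono {m n : ℕ} {x : G} (hx : PC m x) (h : m ≤ n) : PC n x := by
  induction n, h using Nat.le_induction with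
  | base => exact hx
  | succ n _ ih =>
    have h1 := ih.mul (PC.comm (1 : G) 1)
    simpa using h1

theorem PC.swap {n : ℕ} (A y W x B : G) (h : PC n (A * x * W * y * B)) :
    PC (n + 1) (A * y * W * x * B) := by
  have h1 : A * y * W * x * B = (A * ⁅y * W, x * y⁻¹⁆ * A⁻¹) * (A * x * W * y * B) := by
    rw [commutatorElement_def]
    group
  rw [h1, add_comm]
  exact ((PC.comm _ _).conj A).mul h

variable (a b : G)

/-- `d = b a b⁻¹` -/
def dd : G := b * a * b⁻¹

/-- the word with the exponents `M` -/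
def wd (M : List (ℤ × ℤ)) : G := (M.map fun p => a ^ p.1 * dd a b ^ p.2).prod

theorem wd_append (M N : List (ℤ × ℤ)) : wd a b (M ++ N) = wd a b M * wd a b N := by
  simp [wd]

/-- `x` is a word with `a`-exponents `L` and total exponent of `d` equal to `τ` -/
def Ty (x : G) (L : List ℤ) (τ : ℤ) : Prop :=
  ∃ (c : ℤ) (M : List (ℤ × ℤ)), M.map Prod.fst = L ∧ c + (M.map Prod.snd).sum = τ ∧
    x = dd a b ^ c * wd a b M

theorem Ty.dpow (c : ℤ) : Ty a b (dd a b ^ c) [] c := ⟨c, [], rfl, by simp, by simp [wd]⟩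

theorem Ty.apow (p : ℤ) : Ty a b (a ^ p) [p] 0 := ⟨0, [(p, 0)], rfl, by simp, by simp [wd]⟩

theorem Ty.mul_d {x : G} {L : List ℤ} {τ : ℤ} (h : Ty a b x L τ) (e : ℤ) :
    Ty a b (x * dd a b ^ e) L (τ + e) := by
  obtain ⟨c, M, h1, h2, h3⟩ := h
  rcases List.eq_nil_or_concat M with rfl | ⟨M', p, rfl⟩
  · refine ⟨c + e, [], h1, by simp at h2 ⊢; omega, ?_⟩
    rw [h3]
    simp [wd, zpow_add]
  · refine ⟨c, M' ++ [(p.1, p.2 + e)], ?_, ?_, ?_⟩
    · rw [← h1]; simp
    · rw [← h2]; simp; ring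
    · rw [h3, List.concat_eq_append, wd_append, wd_append]
      simp [wd, zpow_add, mul_assoc]

theorem Ty.mul {x y : G} {L L' : List ℤ} {τ τ' : ℤ} (hx : Ty a b x L τ) (hy : Ty a b y L' τ') :
    Ty a b (x * y) (L ++ L') (τ + τ') := by
  obtain ⟨c', M', h1', h2', h3'⟩ := hy
  obtain ⟨c, M, h1, h2, h3⟩ := hx.mul_d a b c'
  refine ⟨c, M ++ M', by simp [h1, h1'], ?_, ?_⟩
  · simp; omega
  · rw [h3', ← mul_assoc, h3, wd_append, mul_assoc]

theorem Ty.split {x : G} {L L' : List ℤ} {τ : ℤ} (h : Ty a b x (L ++ L') τ) :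
    ∃ y z σ ρ, x = y * z ∧ Ty a b y L σ ∧ Ty a b z L' ρ ∧ τ = σ + ρ := by
  obtain ⟨c, M, h1, h2, h3⟩ := h
  obtain ⟨M1, M2, rfl, h5, h6⟩ := List.map_eq_append_iff.1 h1
  refine ⟨dd a b ^ c * wd a b M1, wd a b M2, c + (M1.map Prod.snd).sum, (M2.map Prod.snd).sum, ?_,
    ⟨c, M1, h5, rfl, rfl⟩, ⟨0, M2, h6, by simp, by simp⟩, ?_⟩
  · rw [h3, wd_append, mul_assoc]
  · rw [← h2]; simp; ring

theorem Ty.single {x : G} {p τ : ℤ} (h : Ty a b x [p] τ) :
    ∃ c e, x = dd a b ^ c * a ^ p * dd a b ^ e ∧ c + e = τ := by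
  obtain ⟨c, M, h1, h2, h3⟩ := h
  rcases M with _ | ⟨q, _ | ⟨q', M⟩⟩
  · simp at h1
  · simp at h1 h2
    refine ⟨c, q.2, ?_, h2⟩
    rw [h3, ← h1]
    simp [wd, mul_assoc]
  · simp at h1

theorem Ty.nil {x : G} {τ : ℤ} (h : Ty a b x [] τ) : x = dd a b ^ τ := by
  obtain ⟨c, M, h1, h2, h3⟩ := h
  rw [List.map_eq_nil_iff] at h1
  subst h1
  simp at h2
  rw [h3, h2]
  simp [wd]

/-- all words whose multiset of `a`-exponents is `S` and whose total exponent is zero are products of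
`g` commutators -/
def BM (g : ℕ) (S : Multiset ℤ) : Prop :=
  ∀ (x : G) (L : List ℤ) (τ : ℤ), Ty a b x L τ → (L : Multiset ℤ) = S → τ + L.sum = 0 → PC g x

/-- merging three exponents at given positions -/
theorem merge3 {g : ℕ} {A B C D : List ℤ} {p q r τ : ℤ} {x : G}
    (hx : Ty a b x (A ++ ([p] ++ (B ++ ([q] ++ (C ++ ([r] ++ D)))))) τ)
    (h : ∀ y, Ty a b y (A ++ ([p + r + q] ++ (C ++ (B ++ D)))) τ → PC g y) : PC (g + 1) x := by
  obtain ⟨xA, x1, τA, τ1, rfl, hA, h1, rfl⟩ := hx.split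
  obtain ⟨xp, x2, τp, τ2, rfl, hp, h2, rfl⟩ := h1.split
  obtain ⟨xB, x3, τB, τ3, rfl, hB, h3, rfl⟩ := h2.split
  obtain ⟨xq, x4, τq, τ4, rfl, hq, h4, rfl⟩ := h3.split
  obtain ⟨xC, x5, τC, τ5, rfl, hC, h5, rfl⟩ := h4.split
  obtain ⟨xr, xD, τr, τD, rfl, hr, hD, rfl⟩ := h5.split
  obtain ⟨c1, e1, rfl, rfl⟩ := hp.single
  obtain ⟨c2, e2, rfl, rfl⟩ := hq.single
  obtain ⟨c3, e3, rfl, rfl⟩ := hr.single
  have t1 := (hA.mul_d a b c1)
  have t2 := t1.mul a b (Ty.apow a b (p + r + q))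
  have t3 := t2.mul_d a b e2
  have t4 := t3.mul a b hC
  have t5 := t4.mul_d a b c3
  have t6 := t5.mul_d a b e1
  have t7 := t6.mul a b hB
  have t8 := t7.mul_d a b c2
  have t9 := t8.mul_d a b e3
  have t10 := t9.mul a b hD
  have e10 : (xA * dd a b ^ c1 * a ^ p) * a ^ r * (a ^ q * dd a b ^ e2 * xC * dd a b ^ c3) *
      (dd a b ^ e1 * xB * dd a b ^ c2) * (dd a b ^ e3 * xD) =
      xA * dd a b ^ c1 * a ^ (p + r + q) * dd a b ^ e2 * xC * dd a b ^ c3 * dd a b ^ e1 * xB *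
        dd a b ^ c2 * dd a b ^ e3 * xD := by
    simp only [zpow_add, mul_assoc]
  have e11 : A ++ ([p + r + q] ++ (C ++ (B ++ D))) = A ++ [p + r + q] ++ C ++ B ++ D := by
    simp only [List.append_assoc]
  have e12 : τA + (c1 + e1 + (τB + (c2 + e2 + (τC + (c3 + e3 + τD))))) =
      τA + c1 + 0 + e2 + τC + c3 + e1 + τB + c2 + e3 + τD := by ring
  have key := PC.swap (n := g) (xA * dd a b ^ c1 * a ^ p) (dd a b ^ e1 * xB * dd a b ^ c2)
    (a ^ q * dd a b ^ e2 * xC * dd a b ^ c3) (a ^ r) (dd a b ^ e3 * xD)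
    (by
      rw [e10]
      apply h
      rw [e11, e12]
      exact t10)
  have e13 : xA * (dd a b ^ c1 * a ^ p * dd a b ^ e1 * (xB * (dd a b ^ c2 * a ^ q * dd a b ^ e2 *
      (xC * (dd a b ^ c3 * a ^ r * dd a b ^ e3 * xD))))) =
      xA * dd a b ^ c1 * a ^ p * (dd a b ^ e1 * xB * dd a b ^ c2) *
      (a ^ q * dd a b ^ e2 * xC * dd a b ^ c3) * a ^ r * (dd a b ^ e3 * xD) := by
    simp only [mul_assoc]
  rw [e13]
  exact key

/-- splitting off one element -/
theorem split1 {L : List ℤ} {x : ℤ} {S : Multiset ℤ} (h : (L : Multiset ℤ) = x ::ₘ S) :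
    ∃ A B, L = A ++ ([x] ++ B) ∧ ((A ++ B : List ℤ) : Multiset ℤ) = S := by
  have hx : x ∈ L := by
    rw [← Multiset.mem_coe, h]
    exact Multiset.mem_cons_self _ _
  obtain ⟨A, B, rfl⟩ := List.append_of_mem hx
  refine ⟨A, B, rfl, ?_⟩
  have h1 : ((A ++ x :: B : List ℤ) : Multiset ℤ) = x ::ₘ ((A ++ B : List ℤ) : Multiset ℤ) := by
    rw [← Multiset.coe_add, ← Multiset.coe_add, ← Multiset.cons_coe, Multiset.add_cons]
  rw [h1] at h
  exact (Multiset.cons_inj_right x).1 h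

theorem split2 {L : List ℤ} {x y : ℤ} {S : Multiset ℤ} (h : (L : Multiset ℤ) = x ::ₘ y ::ₘ S) :
    ∃ A B C p q, L = A ++ ([p] ++ (B ++ ([q] ++ C))) ∧ p + q = x + y ∧
      ((A ++ (B ++ C) : List ℤ) : Multiset ℤ) = S := by
  obtain ⟨A, B, rfl, h1⟩ := split1 h
  obtain ⟨A', B', h2, h3⟩ := split1 h1
  rcases List.append_eq_append_iff.1 h2 with ⟨E, h4, h5⟩ | ⟨E, h4, h5⟩
  · subst h4
    refine ⟨A, E, B', x, y, ?_, rfl, ?_⟩
    · rw [h5]
    · rw [← h3]; simp [List.append_assoc]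
  · rcases E with _ | ⟨e, E⟩
    · simp at h4 h5
      subst h4
      refine ⟨A, [], B', x, y, ?_, rfl, ?_⟩
      · rw [← h5]; rfl
      · rw [← h3]; rfl
    · simp at h5
      obtain ⟨rfl, rfl⟩ := h5
      subst h4
      refine ⟨A', E, B, y, x, ?_, add_comm _ _, ?_⟩
      · simp [List.append_assoc]
      · rw [← h3]

theorem split3 {L : List ℤ} {x y z : ℤ} {S : Multiset ℤ}
    (h : (L : Multiset ℤ) = x ::ₘ y ::ₘ z ::ₘ S) :
    ∃ A B C D p q r, L = A ++ ([p] ++ (B ++ ([q] ++ (C ++ ([r] ++ D))))) ∧ p + q + r = x + y + z ∧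
      ((A ++ (B ++ (C ++ D)) : List ℤ) : Multiset ℤ) = S := by
  obtain ⟨A, B, C, p, q, rfl, hs, h1⟩ := split2 h
  obtain ⟨E, F, h2, h3⟩ := split1 h1
  rcases List.append_eq_append_iff.1 h2 with ⟨H, h4, h5⟩ | ⟨H, h4, h5⟩
  · -- `z` lies in `B ++ C`
    subst h4
    rcases List.append_eq_append_iff.1 h5 with ⟨J, h6, h7⟩ | ⟨J, h6, h7⟩
    · subst h6
      refine ⟨A, B, J, F, p, q, z, ?_, by omega, ?_⟩
      · rw [h7]
      · rw [← h3]; simp [List.append_assoc]
    · rcases J with _ | ⟨e, J⟩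
      · simp at h6 h7
        subst h6
        refine ⟨A, B, [], F, p, q, z, ?_, by omega, ?_⟩
        · rw [← h7]; rfl
        · rw [← h3]; simp [List.append_assoc]
      · simp at h7
        obtain ⟨rfl, rfl⟩ := h7
        subst h6
        refine ⟨A, H, J, C, p, z, q, ?_, by omega, ?_⟩
        · simp [List.append_assoc]
        · rw [← h3]; simp [List.append_assoc]
  · rcases H with _ | ⟨e, H⟩
    · simp at h4 h5
      subst h4
      -- `z` is the first element of `B ++ C`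
      rcases B with _ | ⟨e, B⟩
      · simp at h5
        subst h5
        refine ⟨A, [], [], F, p, q, z, ?_, by omega, ?_⟩
        · simp
        · rw [← h3]; simp
      · simp at h5
        obtain ⟨rfl, rfl⟩ := h5
        refine ⟨A, [], B, C, p, z, q, ?_, by omega, ?_⟩
        · simp
        · rw [← h3]; simp
    · simp at h5
      obtain ⟨rfl, rfl⟩ := h5
      subst h4
      refine ⟨E, H, B, C, z, p, q, ?_, by omega, ?_⟩
      · simp [List.append_assoc]
      · rw [← h3]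

theorem BM.merge {g : ℕ} {x y z : ℤ} {S : Multiset ℤ} (h : BM a b g ((x + y + z) ::ₘ S)) :
    BM a b (g + 1) (x ::ₘ y ::ₘ z ::ₘ S) := by
  intro w L τ hw hL hτ
  obtain ⟨A, B, C, D, p, q, r, rfl, h1, h2⟩ := split3 hL
  apply merge3 a b hw
  intro v hv
  refine h v _ τ hv ?_ ?_
  · rw [← h2, ← h1]
    have e : p + r + q = p + q + r := by ring
    rw [e]
    simp only [← Multiset.coe_add, ← Multiset.cons_coe, Multiset.coe_nil, Multiset.cons_add,
      Multiset.add_cons, zero_add, add_zero, List.singleton_append, List.cons_append]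
    congr 1
    ac_rfl
  · simp only [List.sum_append, List.sum_singleton] at hτ ⊢
    omega

theorem BM.drop {g : ℕ} {S : Multiset ℤ} (h : BM a b g S) : BM a b g (0 ::ₘ S) := by
  intro w L τ hw hL hτ
  obtain ⟨A, B, rfl, h1⟩ := split1 hL
  obtain ⟨y, z, σ, ρ, rfl, h2, h3, rfl⟩ := hw.split
  obtain ⟨y', z', σ', ρ', rfl, h4, h5, rfl⟩ := h3.split
  obtain ⟨c, e, rfl, rfl⟩ := h4.single
  refine h _ (A ++ B) (σ + (c + e + ρ')) ?_ h1 ?_
  · have h6 := ((h2.mul_d a b c).mul_d a b e).mul a b h5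
    have e1 : y * (dd a b ^ c * a ^ (0 : ℤ) * dd a b ^ e * z') = y * dd a b ^ c * dd a b ^ e * z' := by
      rw [zpow_zero, mul_one]
      simp only [mul_assoc]
    have e2 : σ + (c + e + ρ') = σ + c + e + ρ' := by ring
    rw [e1, e2]
    exact h6
  · simp only [List.sum_append, List.sum_singleton] at hτ ⊢
    omega

theorem BM.one (P : ℤ) : BM a b 1 {P} := by
  intro w L τ hw hL hτ
  have h1 : L = [P] := by
    have : (L : Multiset ℤ) = (([P] : List ℤ) : Multiset ℤ) := hL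
    rw [Multiset.coe_eq_coe] at this
    exact List.perm_singleton.1 this
  subst h1
  obtain ⟨c, e, rfl, rfl⟩ := hw.single
  simp at hτ
  have h2 : e = -P - c := by omega
  have h3 : dd a b ^ c * a ^ P * dd a b ^ e = dd a b ^ c * ⁅a ^ P, b⁆ * (dd a b ^ c)⁻¹ := by
    have h4 : b * (a ^ P)⁻¹ * b⁻¹ = dd a b ^ (-P) := by
      rw [dd, conj_zpow, zpow_neg]
    rw [commutatorElement_def, h2, sub_eq_add_neg, zpow_add, ← h4, zpow_neg]
    simp only [mul_assoc]
  rw [h3]
  exact (PC.comm _ _).conj _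

theorem exc {S : Multiset ℤ} (h : 0 < Multiset.card S) : ∃ x S', S = x ::ₘ S' := by
  obtain ⟨x, hx⟩ := Multiset.card_pos_iff_exists_mem.1 h
  obtain ⟨t, ht⟩ := Multiset.exists_cons_of_mem hx
  exact ⟨x, t, ht⟩

theorem BM.odd : ∀ (n : ℕ) (S : Multiset ℤ), Multiset.card S = 2 * n + 1 → BM a b (n + 1) S := by
  intro n
  induction n with
  | zero =>
    intro S hS
    obtain ⟨P, rfl⟩ := Multiset.card_eq_one.1 (by simpa using hS)
    exact BM.one a b P
  | succ n ih =>
    intro S hS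
    obtain ⟨x, S1, rfl⟩ := exc (by omega : 0 < Multiset.card S)
    rw [Multiset.card_cons] at hS
    obtain ⟨y, S2, rfl⟩ := exc (by omega : 0 < Multiset.card S1)
    rw [Multiset.card_cons] at hS
    obtain ⟨z, S3, rfl⟩ := exc (by omega : 0 < Multiset.card S2)
    rw [Multiset.card_cons] at hS
    apply BM.merge
    apply ih
    rw [Multiset.card_cons]
    omega

theorem BM.block : ∀ (c : ℕ) (Z S : Multiset ℤ) (g : ℕ), Multiset.card Z = 2 * c + 1 →
    BM a b g (Z.sum ::ₘ S) → BM a b (g + c) (Z + S) := by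
  intro c
  induction c with
  | zero =>
    intro Z S g hZ h
    obtain ⟨P, rfl⟩ := Multiset.card_eq_one.1 (by simpa using hZ)
    simpa using h
  | succ n ih =>
    intro Z S g hZ h
    obtain ⟨x, S1, rfl⟩ := exc (by omega : 0 < Multiset.card Z)
    rw [Multiset.card_cons] at hZ
    obtain ⟨y, S2, rfl⟩ := exc (by omega : 0 < Multiset.card S1)
    rw [Multiset.card_cons] at hZ
    obtain ⟨z, S3, rfl⟩ := exc (by omega : 0 < Multiset.card S2)
    rw [Multiset.card_cons] at hZ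
    have h1 := ih ((x + y + z) ::ₘ S3) S g (by rw [Multiset.card_cons]; omega) (by
      have e : ((x + y + z) ::ₘ S3).sum = (x ::ₘ y ::ₘ z ::ₘ S3).sum := by
        simp only [Multiset.sum_cons]; ring
      rw [e]
      exact h)
    rw [Multiset.cons_add] at h1
    have h2 := BM.merge a b h1
    simp only [Multiset.cons_add]
    exact h2

/-- `D` zero-sum blocks of `2 c + 1` exponents and `2 n + 1` other exponents -/
theorem BM.blocks (c n : ℕ) (Z S : Multiset ℤ) (hZ : Multiset.card Z = 2 * c + 1)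
    (h0 : Z.sum = 0) (hS : Multiset.card S = 2 * n + 1) (D : ℕ) :
    BM a b (n + 1 + D * c) (D • Z + S) := by
  induction D with
  | zero => simpa using BM.odd a b n S hS
  | succ D ih =>
    have h1 := BM.block a b c Z (D • Z + S) (n + 1 + D * c) hZ (by
      rw [h0]
      exact BM.drop a b ih)
    have e1 : n + 1 + D * c + c = n + 1 + (D + 1) * c := by ring
    have e2 : Z + (D • Z + S) = (D + 1) • Z + S := by
      rw [succ_nsmul, ← add_assoc, add_comm Z]
    rw [e1, e2] at h1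
    exact h1

end alg

end Pool.Agent.E8helper95.CL
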