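import Pool.Agent.E8helper95.CL.Lo

/-!
# Words in the syllables `a ^ p b a ^ q b⁻¹` and their powers
-/

set_option autoImplicit false

open scoped commutatorElement

namespace Pool.Agent.E8helper95.CL

open Mo FreeGroup

/-- the word of `a ^ e` -/
def ap (e : ℤ) : List (Bool × Bool) := List.replicate e.natAbs (false, decide (0 < e))

/-- the word of `a ^ p b a ^ q b⁻¹` -/
def syl (p : ℤ × ℤ) : List (Bool × Bool) := ap p.1 ++ ((true, true) :: (ap p.2 ++ [(true, false)]))

/-- the word of the product -/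
def wl : List (ℤ × ℤ) → List (Bool × Bool)
  | [] => []
  | p :: M => syl p ++ wl M

theorem mk_replicate (g e : Bool) (n : ℕ) :
    (FreeGroup.mk (List.replicate n (g, e)) : FreeGroup Bool) =
      (FreeGroup.of g) ^ (if e then (n : ℤ) else -n) := by
  induction n with
  | zero => cases e <;> simp [← FreeGroup.one_eq_mk]
  | succ n ih =>
    have h1 : (FreeGroup.mk (List.replicate (n + 1) (g, e)) : FreeGroup Bool) =
        FreeGroup.mk [(g, e)] * FreeGroup.mk (List.replicate n (g, e)) := by
      rw [FreeGroup.mul_mk]; rfl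
    rw [h1, ih]
    cases e
    · have h2 : (FreeGroup.mk [(g, false)] : FreeGroup Bool) = (FreeGroup.of g) ^ (-1 : ℤ) := by
        rw [zpow_neg_one]; rfl
      rw [h2, ← zpow_add]
      congr 1
      simp
    · have h2 : (FreeGroup.mk [(g, true)] : FreeGroup Bool) = (FreeGroup.of g) ^ (1 : ℤ) := by
        rw [zpow_one]; rfl
      rw [h2, ← zpow_add]
      congr 1
      simp
      ring

theorem mk_ap (e : ℤ) : (FreeGroup.mk (ap e) : FreeGroup Bool) = (FreeGroup.of false) ^ e := by
  rw [ap, mk_replicate]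
  congr 1
  rcases lt_trichotomy e 0 with h | h | h
  · rw [decide_eq_false (by omega), if_neg Bool.false_ne_true]; omega
  · subst h; simp
  · rw [decide_eq_true h, if_pos rfl]; omega

theorem mk_wl (M : List (ℤ × ℤ)) :
    (FreeGroup.mk (wl M) : FreeGroup Bool) = wd (of false) (of true) M := by
  induction M with
  | nil => simp [wl, wd, ← FreeGroup.one_eq_mk]
  | cons p M ih =>
    have h1 : (FreeGroup.mk (wl (p :: M)) : FreeGroup Bool) =
        FreeGroup.mk (ap p.1) * (FreeGroup.mk [(true, true)] * (FreeGroup.mk (ap p.2) *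
          FreeGroup.mk [(true, false)])) * FreeGroup.mk (wl M) := by
      simp only [FreeGroup.mul_mk, wl, syl]
      simp
    rw [h1, ih, mk_ap, mk_ap]
    have h2 : (FreeGroup.mk [(true, true)] : FreeGroup Bool) = of true := rfl
    have h3 : (FreeGroup.mk [(true, false)] : FreeGroup Bool) = (of true)⁻¹ := rfl
    have h4 : dd (of false) (of true) ^ p.2 =
        (of true * (of false) ^ p.2 * (of true)⁻¹ : FreeGroup Bool) := by
      rw [dd, conj_zpow]
    rw [h2, h3]
    simp only [wd, List.map_cons, List.prod_cons]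
    rw [h4]
    simp only [mul_assoc]

theorem red_ap (e : ℤ) : IsReduced (ap e) := by
  rw [ap, FreeGroup.IsReduced]
  exact List.isChain_replicate_of_rel _ (fun _ => rfl)

theorem ap_ne (e : ℤ) (h : e ≠ 0) : ∃ l, ap e = (false, decide (0 < e)) :: l := by
  rw [ap]
  obtain ⟨n, hn⟩ : ∃ n, e.natAbs = n + 1 := ⟨e.natAbs - 1, by omega⟩
  rw [hn]
  exact ⟨_, rfl⟩

theorem ap_mem {e : ℤ} {x : Bool × Bool} (h : x ∈ ap e) : x.1 = false := by
  rw [ap] at h
  rw [List.eq_of_mem_replicate h]

theorem red_syl (p : ℤ × ℤ) (h2 : p.2 ≠ 0) : IsReduced (syl p) := by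
  obtain ⟨l, hl⟩ := ap_ne p.2 h2
  rw [syl, FreeGroup.IsReduced, List.isChain_append]
  refine ⟨red_ap p.1, ?_, ?_⟩
  · have h3 : List.IsChain (fun a b : Bool × Bool => a.1 = b.1 → a.2 = b.2)
        (ap p.2 ++ [(true, false)]) := by
      rw [List.isChain_append]
      refine ⟨red_ap p.2, List.isChain_singleton _, ?_⟩
      intro x hx y hy
      simp at hy
      subst hy
      intro h
      exfalso
      have := ap_mem (List.mem_of_mem_getLast? hx)
      rw [this] at h
      exact absurd h (by decide)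
    rw [hl] at h3 ⊢
    rw [List.cons_append, List.isChain_cons_cons]
    refine ⟨?_, h3⟩
    intro h
    exact absurd h (by simp)
  · intro x hx y hy
    simp at hy
    subst hy
    intro h
    exfalso
    have := ap_mem (List.mem_of_mem_getLast? hx)
    rw [this] at h
    exact absurd h (by decide)

theorem red_wl (M : List (ℤ × ℤ)) (hM : ∀ p ∈ M, p.1 ≠ 0 ∧ p.2 ≠ 0) : IsReduced (wl M) := by
  induction M with
  | nil => exact IsReduced.nil
  | cons p M ih =>
    rw [wl, FreeGroup.IsReduced, List.isChain_append]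
    refine ⟨red_syl p (hM p (by simp)).2, ih (fun q hq => hM q (by simp [hq])), ?_⟩
    intro x hx y hy
    have h1 : x = (true, false) := by
      have e : syl p = (ap p.1 ++ (true, true) :: ap p.2) ++ [(true, false)] := by simp [syl]
      rw [e, List.getLast?_concat] at hx
      exact (Option.some.inj hx).symm
    rcases M with _ | ⟨q, M⟩
    · simp [wl] at hy
    · obtain ⟨l, hl⟩ := ap_ne q.1 (hM q (by simp)).1
      simp [wl, syl, hl] at hy
      rw [h1, ← hy]
      intro h
      exact absurd h (by simp)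

variable (s : ℕ × ℕ)

theorem Ph_replicate (e : Bool) (n : ℕ) :
    Ph s (List.replicate n (false, e)) = pu (if e then (n : ℤ) else -n) := by
  induction n with
  | zero => cases e <;> simp [Ph]
  | succ n ih =>
    rw [List.replicate_succ, Ph, ih]
    cases e <;> simp [lt, mo] <;> ring

theorem Ph_ap (e : ℤ) : Ph s (ap e) = pu e := by
  rw [ap, Ph_replicate]
  congr 1
  rcases lt_trichotomy e 0 with h | h | h
  · rw [decide_eq_false (by omega), if_neg Bool.false_ne_true]; omega
  · subst h; simp
  · rw [decide_eq_true h, if_pos rfl]; omega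

theorem Ph_syl (p : ℤ × ℤ) : Ph s (syl p) = fu p.1 true (H s.2 p.2) false 0 := by
  rw [syl, Ph_append, Ph, Ph_append, Ph_ap, Ph_ap, Ph, Ph]
  simp [lt, mo, J]

theorem Ph_wl (M : List (ℤ × ℤ)) : ∀ p : ℤ × ℤ,
    Ph s (wl (p :: M)) = fu p.1 true (H s.2 p.2 + (M.map fun p => F s.1 p.1 + H s.2 p.2).sum) false 0 := by
  induction M with
  | nil => intro p; simp [wl, Ph_syl]
  | cons q M ih =>
    intro p
    rw [wl, Ph_append, Ph_syl, ih]
    simp [mo, J]
    ring

/-- the value of the quasimorphism on a product of syllables -/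
theorem Qf_wd (M : List (ℤ × ℤ)) (hM : ∀ p ∈ M, p.1 ≠ 0 ∧ p.2 ≠ 0) :
    (M.map fun p => F s.1 p.1 + H s.2 p.2).sum - 1 / 2 ≤ Qf s (wd (of false) (of true) M) := by
  rw [← mk_wl, Qf, toWord_mk, (red_wl M hM).reduce_eq]
  rcases M with _ | ⟨p, M⟩
  · simp [wl, Ph, vl]
  · rw [Ph_wl]
    have h1 := (F_bd s.1 p.1).2
    simp only [List.map_cons, List.sum_cons, vl]
    linarith

theorem wd_pow {G : Type*} [Group G] (a b : G) (M : List (ℤ × ℤ)) (n : ℕ) :
    wd a b M ^ n = wd a b (List.replicate n M).flatten := by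
  induction n with
  | zero => simp [wd]
  | succ n ih => rw [pow_succ', List.replicate_succ, List.flatten_cons, wd_append, ih]

theorem sum_flatten (f : ℤ × ℤ → ℚ) (M : List (ℤ × ℤ)) (n : ℕ) :
    (((List.replicate n M).flatten).map f).sum = n * (M.map f).sum := by
  induction n with
  | zero => simp
  | succ n ih =>
    rw [List.replicate_succ, List.flatten_cons, List.map_append, List.sum_append, ih]
    push_cast
    ring

/-- the lower bound -/
theorem lower (M : List (ℤ × ℤ)) (hM : ∀ p ∈ M, p.1 ≠ 0 ∧ p.2 ≠ 0) (m g : ℕ)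
    (h : PC (g + 1) (wd (of false) (of true) M ^ m)) :
    m * (M.map fun p => F s.1 p.1 + H s.2 p.2).sum ≤ 2 * g + 1 := by
  by_contra hc
  push Not at hc
  set T := (M.map fun p => F s.1 p.1 + H s.2 p.2).sum with hT
  obtain ⟨n, hn⟩ := exists_nat_gt ((5 / 2) / (m * T - (2 * g + 1)))
  have hpos : 0 < (m : ℚ) * T - (2 * g + 1) := by linarith
  rw [div_lt_iff₀ hpos] at hn
  have h1 := Qf_PC s _ _ (h.pow n)
  have h2 : (wd (of false) (of true) M ^ m) ^ n =
      wd (of false) (of true) (List.replicate (m * n) M).flatten := by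
    rw [← pow_mul, wd_pow]
  have h3 := Qf_wd s (List.replicate (m * n) M).flatten (by
    intro p hp
    rw [List.mem_flatten] at hp
    obtain ⟨l, hl, hpl⟩ := hp
    rw [List.eq_of_mem_replicate hl] at hpl
    exact hM p hpl)
  rw [sum_flatten, ← hT, ← h2] at h3
  have h4 : ((n / 2 : ℕ) : ℚ) ≤ n / 2 := Nat.cast_div_le
  push_cast at h1 h3
  nlinarith

end Pool.Agent.E8helper95.CL
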